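import Mathlib

set_option autoImplicit false

namespace Pool.Agent.P.MP_4d0e60_an

variable {R : Type} [CommRing R] {Y Z : Type}

/-- Chains of ordered tuples. -/
abbrev Ch (R : Type) [CommRing R] (Y : Type) := List Y →₀ R

noncomputable def e (R : Type) [CommRing R] {Y : Type} (l : List Y) : Ch R Y := Finsupp.single l 1

noncomputable def ext {M : Type} [AddCommGroup M] [Module R M] (f : List Y → M) :
    Ch R Y →ₗ[R] M := Finsupp.linearCombination R f

@[simp] lemma ext_e {M : Type} [AddCommGroup M] [Module R M] (f : List Y → M) (l : List Y) :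
    ext f (e R l) = f l := by simp [ext, e]

attribute [irreducible] ext

lemma hom_ext {M : Type} [AddCommGroup M] [Module R M] {f g : Ch R Y →ₗ[R] M}
    (h : ∀ l, f (e R l) = g (e R l)) : f = g := by
  apply Finsupp.lhom_ext'
  intro l
  ext
  simpa [e] using h l

lemma hom_ext' {M : Type} [AddCommGroup M] [Module R M] (f g : Ch R Y →ₗ[R] M)
    (h : ∀ l, f (e R l) = g (e R l)) (c : Ch R Y) : f c = g c := by rw [hom_ext h]

noncomputable def cons (y : Y) : Ch R Y →ₗ[R] Ch R Y := ext (fun l => e R (y :: l))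

noncomputable def mapc (f : Y → Z) : Ch R Y →ₗ[R] Ch R Z := ext (fun l => e R (l.map f))

@[simp] lemma cons_e (y : Y) (l : List Y) : cons y (e R l) = e R (y :: l) := by simp [cons]

@[simp] lemma mapc_e (f : Y → Z) (l : List Y) : mapc f (e R l) = e R (l.map f) := by simp [mapc]

noncomputable def bd0 (R : Type) [CommRing R] {Y : Type} : List Y → Ch R Y
  | [] => 0
  | y :: l => e R l - cons y (bd0 R l)

noncomputable def bd : Ch R Y →ₗ[R] Ch R Y := ext (bd0 R)

@[simp] lemma bd_nil : bd (e R ([] : List Y)) = 0 := by simp [bd, bd0]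

lemma bd_e_cons (y : Y) (l : List Y) : bd (e R (y :: l)) = e R l - cons y (bd (e R l)) := by
  simp [bd, bd0]

lemma bd_cons (y : Y) (c : Ch R Y) : bd (cons y c) = c - cons y (bd c) :=
  hom_ext' (bd ∘ₗ cons y) (LinearMap.id - cons y ∘ₗ bd) (fun l => by simp [bd_e_cons]) c

lemma bd_bd (c : Ch R Y) : bd (bd c) = 0 := by
  refine hom_ext' (bd ∘ₗ bd) 0 (fun l => ?_) c
  induction l with
  | nil => simp
  | cons y l ih =>
    simp only [LinearMap.comp_apply, LinearMap.zero_apply] at ih ⊢
    rw [bd_e_cons, map_sub, bd_cons, ih]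
    simp

lemma mapc_cons (f : Y → Z) (y : Y) (c : Ch R Y) : mapc f (cons y c) = cons (f y) (mapc f c) :=
  hom_ext' (mapc f ∘ₗ cons y) (cons (f y) ∘ₗ mapc f) (fun l => by simp) c

lemma bd_mapc (f : Y → Z) (c : Ch R Y) : bd (mapc f c) = mapc f (bd c) := by
  refine hom_ext' (bd ∘ₗ mapc f) (mapc f ∘ₗ bd) (fun l => ?_) c
  induction l with
  | nil => simp
  | cons y l ih =>
    simp only [LinearMap.comp_apply, mapc_e, List.map_cons] at ih ⊢
    rw [bd_e_cons, bd_e_cons, map_sub, mapc_cons, ih, mapc_e]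

lemma mapc_mapc {W : Type} (f : Y → Z) (g : Z → W) (c : Ch R Y) :
    mapc g (mapc f c) = mapc (g ∘ f) c :=
  hom_ext' (mapc g ∘ₗ mapc f) (mapc (g ∘ f)) (fun l => by simp) c

lemma mapc_id (c : Ch R Y) : mapc id c = c :=
  hom_ext' (mapc id) LinearMap.id (fun l => by simp) c

/-- Chains supported on a set of tuples. -/
noncomputable def Sp (R : Type) [CommRing R] {Y : Type} (S : Set (List Y)) :
    Submodule R (Ch R Y) := Submodule.span R (e R '' S)

lemma e_mem {S : Set (List Y)} {l : List Y} (h : l ∈ S) : e R l ∈ Sp R S :=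
  Submodule.subset_span ⟨l, h, rfl⟩

lemma Sp_map {M : Type} [AddCommGroup M] [Module R M] {S : Set (List Y)} (L : Ch R Y →ₗ[R] M)
    (N : Submodule R M) (h : ∀ l ∈ S, L (e R l) ∈ N) {c : Ch R Y} (hc : c ∈ Sp R S) :
    L c ∈ N := by
  have : Sp R S ≤ N.comap L := by
    apply Submodule.span_le.mpr
    rintro _ ⟨l, hl, rfl⟩
    exact h l hl
  exact this hc

lemma Sp_mono {S S' : Set (List Y)} (h : S ⊆ S') {c : Ch R Y} (hc : c ∈ Sp R S) : c ∈ Sp R S' :=
  Submodule.span_mono (Set.image_mono h) hc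

lemma Sp_eq {M : Type} [AddCommGroup M] [Module R M] {S : Set (List Y)} (L L' : Ch R Y →ₗ[R] M)
    (h : ∀ l ∈ S, L (e R l) = L' (e R l)) {c : Ch R Y} (hc : c ∈ Sp R S) : L c = L' c := by
  have := Sp_map (L - L') ⊥ (fun l hl => by simp [h l hl]) hc
  simpa [sub_eq_zero] using this

lemma bd_mem (l : List Y) :
    bd (e R l) ∈ Sp R {s : List Y | s.Sublist l ∧ s.length + 1 = l.length} := by
  induction l with
  | nil => simp
  | cons y l ih =>
    rw [bd_e_cons]
    apply Submodule.sub_mem
    · exact e_mem ⟨List.sublist_cons_self y l, rfl⟩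
    · refine Sp_map (cons y) _ (fun s hs => ?_) ih
      rw [cons_e]
      exact e_mem ⟨hs.1.cons_cons y, by simp [hs.2]⟩

noncomputable def prism0 (R : Type) [CommRing R] {Y Z : Type} (f g : Y → Z) : List Y → Ch R Z
  | [] => 0
  | y :: l => e R (f y :: g y :: l.map g) - cons (f y) (prism0 R f g l)

noncomputable def prism (f g : Y → Z) : Ch R Y →ₗ[R] Ch R Z := ext (prism0 R f g)

lemma prism_cons (f g : Y → Z) (y : Y) (c : Ch R Y) :
    prism f g (cons y c) = cons (f y) (cons (g y) (mapc g c)) - cons (f y) (prism f g c) :=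
  hom_ext' (prism f g ∘ₗ cons y) (cons (f y) ∘ₗ cons (g y) ∘ₗ mapc g - cons (f y) ∘ₗ prism f g)
    (fun l => by simp [prism, prism0]) c

lemma bd_prism (f g : Y → Z) (c : Ch R Y) :
    bd (prism f g c) + prism f g (bd c) = mapc g c - mapc f c := by
  refine hom_ext' (bd ∘ₗ prism f g + prism f g ∘ₗ bd) (mapc g - mapc f) (fun l => ?_) c
  induction l with
  | nil => simp [prism, prism0]
  | cons y l ih =>
    simp only [LinearMap.comp_apply, LinearMap.add_apply, LinearMap.sub_apply] at ih ⊢
    rw [← cons_e, prism_cons, bd_cons y, map_sub, map_sub, prism_cons, bd_cons, bd_cons, bd_cons,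
      mapc_cons, mapc_cons, bd_mapc]
    have : bd (prism f g (e R l)) = mapc g (e R l) - mapc f (e R l) - prism f g (bd (e R l)) := by
      rw [← ih]; abel
    rw [this]
    simp only [map_sub]
    abel

lemma prism_mem (f g : Y → Z) (l : List Y) :
    prism f g (e R l) ∈ Sp R {s : List Z | s.length = l.length + 1 ∧
      ∀ u ∈ s, ∃ y ∈ l, u = f y ∨ u = g y} := by
  induction l with
  | nil => simp [prism, prism0]
  | cons y l ih =>
    rw [← cons_e, prism_cons]
    apply Submodule.sub_mem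
    · simp only [mapc_e, cons_e]
      refine e_mem ⟨by simp, ?_⟩
      intro u hu
      simp only [List.mem_cons, List.mem_map] at hu ⊢
      rcases hu with rfl | rfl | ⟨y', hy', rfl⟩
      · exact ⟨y, Or.inl rfl, Or.inl rfl⟩
      · exact ⟨y, Or.inl rfl, Or.inr rfl⟩
      · exact ⟨y', Or.inr hy', Or.inr rfl⟩
    · refine Sp_map (cons (f y)) _ (fun s hs => ?_) ih
      rw [cons_e]
      refine e_mem ⟨by simp [hs.1], ?_⟩
      intro u hu
      simp only [List.mem_cons] at hu ⊢
      rcases hu with rfl | hu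
      · exact ⟨y, Or.inl rfl, Or.inl rfl⟩
      · obtain ⟨y', hy', h⟩ := hs.2 u hu
        exact ⟨y', Or.inr hy', h⟩

/-- Tuples of length `k` whose entries are pairwise related. -/
def Sm (k : ℕ) (r : Y → Y → Prop) : Set (List Y) := {l | l.length = k ∧ ∀ u ∈ l, ∀ v ∈ l, r u v}

/-- A small cycle bounds a small chain when there is a discrete contraction. -/
lemma fill (r r' : Y → Y → Prop) (H : ℕ → Y → Y) (M : ℕ) (v : Y)
    (h0 : ∀ y, r y y → H 0 y = y) (hM : ∀ y, r y y → H M y = v) (hv : r' v v)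
    (hstep : ∀ i < M, ∀ y y', r y y' → ∀ a ∈ ({i, i + 1} : Set ℕ), ∀ b ∈ ({i, i + 1} : Set ℕ),
      r' (H a y) (H b y'))
    (k : ℕ) (z : Ch R Y) (hz : z ∈ Sp R (Sm k r)) (hbd : bd z = 0) :
    ∃ c ∈ Sp R (Sm (k + 1) r'), bd c = z := by
  have key : ∀ i ≤ M, ∃ c ∈ Sp R (Sm (k + 1) r'), bd c = z - mapc (H i) z := by
    intro i
    induction i with
    | zero =>
      intro _
      refine ⟨0, Submodule.zero_mem _, ?_⟩
      have : mapc (H 0) z = LinearMap.id (R := R) z := by
        refine Sp_eq _ _ (fun l hl => ?_) hz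
        rw [mapc_e, LinearMap.id_apply]
        congr 1
        conv_rhs => rw [← List.map_id l]
        exact List.map_congr_left (fun y hy => h0 y (hl.2 y hy y hy))
      simp [this]
    | succ i ih =>
      intro hi
      obtain ⟨c, hc, hbc⟩ := ih (by omega)
      refine ⟨c - prism (H i) (H (i + 1)) z, Submodule.sub_mem _ hc ?_, ?_⟩
      · refine Sp_map _ _ (fun l hl => ?_) hz
        refine Sp_mono ?_ (prism_mem _ _ l)
        intro s hs
        refine ⟨by rw [hs.1, hl.1], fun u hu w hw => ?_⟩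
        obtain ⟨y, hy, hu'⟩ := hs.2 u hu
        obtain ⟨y', hy', hw'⟩ := hs.2 w hw
        have := hstep i (by omega) y y' (hl.2 y hy y' hy')
        rcases hu' with rfl | rfl <;> rcases hw' with rfl | rfl <;> apply this <;> simp
      · have := bd_prism (H i) (H (i + 1)) z
        rw [hbd, map_zero, add_zero] at this
        rw [map_sub, hbc, this]
        abel
  obtain ⟨c, hc, hbc⟩ := key M le_rfl
  refine ⟨c + cons v (mapc (H M) z), Submodule.add_mem _ hc ?_, ?_⟩
  · refine Sp_map (cons v ∘ₗ mapc (H M)) _ (fun l hl => ?_) hz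
    simp only [LinearMap.comp_apply, mapc_e, cons_e]
    have hall : ∀ u ∈ v :: l.map (H M), u = v := by
      intro u hu
      simp only [List.mem_cons, List.mem_map] at hu
      rcases hu with rfl | ⟨y, hy, rfl⟩
      · rfl
      · exact hM y (hl.2 y hy y hy)
    refine e_mem ⟨by simp [hl.1], fun u hu w hw => ?_⟩
    rw [hall u hu, hall w hw]
    exact hv
  · rw [map_add, hbc, bd_cons, bd_mapc, hbd]
    simp

end Pool.Agent.P.MP_4d0e60_an
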