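import Mathlib
import Pool.Agent.P.MP_4d0e60_an.Chains

set_option autoImplicit false

namespace Pool.Agent.P.MP_4d0e60_an

open scoped Classical

section Psi

variable {R : Type} [CommRing R] {I G : Type} [LinearOrder I]

/-- The entry with the least first coordinate. -/
def minv : I × G → List (I × G) → I × G
  | v, [] => v
  | v, w :: l => if v.1 ≤ (minv w l).1 then v else minv w l

lemma minv_mem (v : I × G) (l : List (I × G)) : minv v l ∈ v :: l := by
  induction l generalizing v with
  | nil => simp [minv]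
  | cons w l ih =>
    unfold minv
    split_ifs
    · simp
    · exact List.mem_cons_of_mem _ (ih w)

lemma minv_le (v : I × G) (l : List (I × G)) : ∀ u ∈ v :: l, (minv v l).1 ≤ u.1 := by
  induction l generalizing v with
  | nil => simp [minv]
  | cons w l ih =>
    intro u hu
    unfold minv
    rcases List.mem_cons.mp hu with rfl | hu
    · split_ifs with h
      · exact le_rfl
      · exact (not_le.mp h).le
    · split_ifs with h
      · exact h.trans (ih w u hu)
      · exact ih w u hu

lemma minv_map (S : I × G → I × G) (hS : ∀ u, (S u).1 = u.1) (v : I × G) (l : List (I × G)) :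
    minv (S v) (l.map S) = S (minv v l) := by
  induction l generalizing v with
  | nil => simp [minv]
  | cons w l ih =>
    simp only [List.map_cons, minv, ih, hS]
    split_ifs <;> rfl

noncomputable def cone {Y : Type} (v : Y) : Ch R Y →ₗ[R] Ch R Y :=
  ext (fun s => if s.head? = some v then 0 else e R (v :: s))

lemma cone_e {Y : Type} (v : Y) (s : List Y) :
    cone v (e R s) = if s.head? = some v then 0 else e R (v :: s) := by simp [cone]

lemma cone_cons {Y : Type} (v : Y) (c : Ch R Y) : cone v (cons v c) = 0 :=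
  hom_ext' (cone v ∘ₗ cons v) 0 (fun l => by simp [cone_e]) c

lemma cone_mapc {Y : Type} (S : Y → Y) (hS : Function.Injective S) (v : Y) (c : Ch R Y) :
    cone (S v) (mapc S c) = mapc S (cone v c) := by
  refine hom_ext' (cone (S v) ∘ₗ mapc S) (mapc S ∘ₗ cone v) (fun l => ?_) c
  simp only [LinearMap.comp_apply, mapc_e, cone_e]
  cases l with
  | nil => simp
  | cons w l =>
    by_cases h : w = v
    · simp [h]
    · simp [h, hS.ne h]

lemma cone_bd (v : I × G) (s : List (I × G)) (hs : s.Pairwise (fun a b => a.1 < b.1))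
    (hv : ∀ u ∈ s, u = v ∨ v.1 < u.1) :
    bd (cone v (e R s)) + cone v (bd (e R s)) = e R s := by
  cases s with
  | nil => simp [cone_e, bd_e_cons]
  | cons w t =>
    rw [List.pairwise_cons] at hs
    by_cases h : w = v
    · subst h
      rw [bd_e_cons, map_sub, cone_cons, cone_e, cone_e]
      have : t.head? ≠ some w := by
        intro ht
        have := hs.1 w (List.mem_of_mem_head? ht)
        exact lt_irrefl _ this
      simp [this]
    · have hvw : v.1 < w.1 := (hv w (by simp)).resolve_left h
      have hne : ∀ u ∈ w :: t, u ≠ v := by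
        intro u hu
        rcases List.mem_cons.mp hu with rfl | hu
        · exact h
        · intro huv
          have := hs.1 u hu
          rw [huv] at this
          exact lt_asymm hvw this
      have h1 : cone v (bd (e R (w :: t))) = cons v (bd (e R (w :: t))) := by
        refine Sp_eq _ _ (fun s hs' => ?_) (bd_mem (w :: t))
        rw [cone_e, cons_e, if_neg]
        intro ht
        exact hne v (hs'.1.subset (List.mem_of_mem_head? ht)) rfl
      rw [h1, cone_e, if_neg (by simp [h]), bd_e_cons v]
      abel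

/-- Increasing tuples with entries in `l`. -/
def Tgt (l : List (I × G)) (k : ℕ) : Set (List (I × G)) :=
  {s | s.Pairwise (fun a b => a.1 < b.1) ∧ (∀ u ∈ s, u ∈ l) ∧ s.length = k}

/-- Tuples spanning a simplex of the join. -/
def Good (k : ℕ) : Set (List (I × G)) := Sm k (fun u v => u.1 = v.1 → u = v)

noncomputable def psi (R : Type) [CommRing R] {I G : Type} [LinearOrder I] :
    ℕ → (Ch R (I × G) →ₗ[R] Ch R (I × G))
  | 0 => LinearMap.id
  | k + 1 => ext (fun l => match l with
      | [] => 0
      | v :: t => cone (minv v t) (psi R k (bd (e R (v :: t)))))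

lemma psi_succ (k : ℕ) (v : I × G) (t : List (I × G)) :
    psi R (k + 1) (e R (v :: t)) = cone (minv v t) (psi R k (bd (e R (v :: t)))) := by
  simp [psi]

lemma psi_succ_nil (k : ℕ) : psi R (k + 1) (e R ([] : List (I × G))) = 0 := by
  simp [psi]

lemma psi_mapc (S : I × G → I × G) (hS : ∀ u, (S u).1 = u.1) (hinj : Function.Injective S)
    (k : ℕ) (c : Ch R (I × G)) : psi R k (mapc S c) = mapc S (psi R k c) := by
  induction k generalizing c with
  | zero => simp [psi]
  | succ k ih =>
    refine hom_ext' (psi R (k + 1) ∘ₗ mapc S) (mapc S ∘ₗ psi R (k + 1)) (fun l => ?_) c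
    simp only [LinearMap.comp_apply, mapc_e]
    cases l with
    | nil => simp [psi_succ_nil]
    | cons v t =>
      rw [List.map_cons, psi_succ, psi_succ, minv_map S hS, ← List.map_cons, ← mapc_e, bd_mapc, ih,
        cone_mapc S hinj]

omit [LinearOrder I] in
lemma bd_mem_good (k : ℕ) (l : List (I × G)) (hl : l ∈ Good (k + 1)) :
    bd (e R l) ∈ Sp R {s | s ∈ Good k ∧ ∀ u ∈ s, u ∈ l} := by
  refine Sp_mono ?_ (bd_mem l)
  intro s hs
  have h1 := hs.2
  have h2 := hl.1
  exact ⟨⟨by omega, fun u hu w hw => hl.2 u (hs.1.subset hu) w (hs.1.subset hw)⟩,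
    fun u hu => hs.1.subset hu⟩

lemma psi_step (k : ℕ)
    (hA : ∀ l : List (I × G), l ∈ Good k → psi R k (e R l) ∈ Sp R (Tgt l k))
    (hC : ∀ l : List (I × G), l ∈ Good (k + 1) → bd (psi R k (bd (e R l))) = 0) :
    ∀ l : List (I × G), l ∈ Good (k + 1) → psi R (k + 1) (e R l) ∈ Sp R (Tgt l (k + 1)) ∧
      bd (psi R (k + 1) (e R l)) = psi R k (bd (e R l)) := by
  intro l hl
  obtain ⟨v, t, rfl⟩ : ∃ v t, l = v :: t := by
    cases l with
    | nil => exact absurd hl.1 (by simp)
    | cons v t => exact ⟨v, t, rfl⟩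
  have hc : psi R k (bd (e R (v :: t))) ∈ Sp R (Tgt (v :: t) k) := by
    refine Sp_map _ _ (fun s hs => ?_) (bd_mem_good k _ hl)
    refine Sp_mono ?_ (hA s hs.1)
    intro s' hs'
    exact ⟨hs'.1, fun u hu => hs.2 u (hs'.2.1 u hu), hs'.2.2⟩
  have hmin : ∀ u ∈ v :: t, u = minv v t ∨ (minv v t).1 < u.1 := by
    intro u hu
    rcases (minv_le v t u hu).eq_or_lt with h | h
    · exact Or.inl (hl.2 u hu _ (minv_mem v t) h.symm)
    · exact Or.inr h
  rw [psi_succ]
  constructor
  · refine Sp_map _ _ (fun s hs => ?_) hc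
    rw [cone_e]
    split_ifs with h
    · exact Submodule.zero_mem _
    · refine e_mem ⟨?_, ?_, by simp [hs.2.2]⟩
      · rw [List.pairwise_cons]
        refine ⟨fun u hu => ?_, hs.1⟩
        cases s with
        | nil => simp at hu
        | cons w s =>
          have hw : (minv v t).1 < w.1 := by
            refine (hmin w (hs.2.1 w (by simp))).resolve_left ?_
            intro hw
            exact h (by simp [hw])
          rcases List.mem_cons.mp hu with rfl | hu
          · exact hw
          · exact hw.trans ((List.pairwise_cons.mp hs.1).1 u hu)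
      · intro u hu
        rcases List.mem_cons.mp hu with rfl | hu
        · exact minv_mem v t
        · exact hs.2.1 u hu
  · have h1 := Sp_eq (bd ∘ₗ cone (minv v t) + cone (minv v t) ∘ₗ bd) LinearMap.id
      (fun s hs => cone_bd (minv v t) s hs.1 (fun u hu => hmin u (hs.2.1 u hu))) hc
    simp only [LinearMap.add_apply, LinearMap.comp_apply, LinearMap.id_apply] at h1
    rw [hC _ hl, map_zero, add_zero] at h1
    exact h1

lemma psi_inv (k : ℕ) :
    (∀ l : List (I × G), l ∈ Good k → psi R k (e R l) ∈ Sp R (Tgt l k)) ∧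
    (∀ l : List (I × G), l ∈ Good (k + 1) → bd (psi R k (bd (e R l))) = 0) := by
  induction k with
  | zero =>
    refine ⟨fun l hl => ?_, fun l _ => by simp [psi, bd_bd]⟩
    have : l = [] := List.length_eq_zero_iff.mp hl.1
    subst this
    exact e_mem ⟨by simp, by simp, rfl⟩
  | succ k ih =>
    have h := psi_step k ih.1 ih.2
    refine ⟨fun l hl => (h l hl).1, fun l hl => ?_⟩
    have h1 := Sp_eq (bd ∘ₗ psi R (k + 1)) (psi R k ∘ₗ bd)
      (fun s hs => (h s hs.1).2) (bd_mem_good (k + 1) l hl)
    simp only [LinearMap.comp_apply] at h1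
    rw [h1, bd_bd, map_zero]

lemma bd_psi (k : ℕ) {c : Ch R (I × G)} (hc : c ∈ Sp R (Good (k + 1))) :
    bd (psi R (k + 1) c) = psi R k (bd c) :=
  Sp_eq (bd ∘ₗ psi R (k + 1)) (psi R k ∘ₗ bd)
    (fun s hs => (psi_step k (psi_inv k).1 (psi_inv k).2 s hs).2) hc

lemma psi_len (k : ℕ) {c : Ch R (I × G)} (hc : c ∈ Sp R (Good k)) :
    psi R k c ∈ Sp R {s | s.length = k} :=
  Sp_map _ _ (fun s hs => Sp_mono (fun _ h => h.2.2) ((psi_inv k).1 s hs)) hc

lemma psi_zero [Fintype I] (k : ℕ) (hk : Fintype.card I < k) {c : Ch R (I × G)}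
    (hc : c ∈ Sp R (Good k)) : psi R k c = 0 := by
  have := Sp_map (psi R k) ⊥ (fun s hs => by
    have h1 := (psi_inv (R := R) k).1 s hs
    have h2 : Tgt s k = ∅ := by
      ext s'
      simp only [Set.mem_empty_iff_false, iff_false]
      intro hs'
      have hnd : (s'.map Prod.fst).Nodup := by
        rw [List.Nodup, List.pairwise_map]
        exact hs'.1.imp (fun h => h.ne)
      have := hnd.length_le_card
      rw [List.length_map, hs'.2.2] at this
      omega
    rw [h2] at h1
    simpa [Sp] using h1) hc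
  simpa using this

end Psi

section Phi

variable {R : Type} [CommRing R] {I G M : Type} [AddCommGroup G] [CommRing M] [Algebra R M]

noncomputable def phi (R : Type) [CommRing R] {I G M : Type} [AddCommGroup G] [CommRing M]
    [Algebra R M] (th : ℕ → M) (χ : AddChar G M) : ℕ → (Ch R (I × G) →ₗ[R] M)
  | 0 => ext (fun _ => th 0)
  | k + 1 => ext (fun l => match l with
      | [] => 0
      | v :: t => χ v.2 * Classical.epsilon (fun r' => th k * r' =
          χ (-v.2) * phi R th χ k (bd (e R (v :: t)))))

lemma phi_succ (th : ℕ → M) (χ : AddChar G M) (k : ℕ) (v : I × G) (t : List (I × G)) :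
    phi R th χ (k + 1) (e R (v :: t)) = χ v.2 * Classical.epsilon (fun r' => th k * r' =
          χ (-v.2) * phi R th χ k (bd (e R (v :: t)))) := by
  simp [phi]

lemma phi_mapc (th : ℕ → M) (χ : AddChar G M) (g : G) (h0 : χ g * th 0 = th 0) (k : ℕ)
    (c : Ch R (I × G)) :
    phi R th χ k (mapc (fun u => (u.1, u.2 + g)) c) = χ g * phi R th χ k c := by
  induction k generalizing c with
  | zero =>
    have := hom_ext' (phi R th χ 0 ∘ₗ mapc (fun u : I × G => (u.1, u.2 + g)))
      (LinearMap.mulLeft R (χ g) ∘ₗ phi R th χ 0) (fun l => by simp [phi, h0]) c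
    simpa only [LinearMap.comp_apply, LinearMap.mulLeft_apply] using this
  | succ k ih =>
    suffices h : ∀ l, (phi R th χ (k + 1) ∘ₗ mapc (fun u : I × G => (u.1, u.2 + g))) (e R l) =
        (LinearMap.mulLeft R (χ g) ∘ₗ phi R th χ (k + 1)) (e R l) by
      simpa only [LinearMap.comp_apply, LinearMap.mulLeft_apply] using hom_ext' _ _ h c
    intro l
    simp only [LinearMap.comp_apply, mapc_e, LinearMap.mulLeft_apply]
    cases l with
    | nil => simp [phi]
    | cons v t =>
      have h2 := mapc_e (R := R) (fun u : I × G => (u.1, u.2 + g)) (v :: t)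
      rw [List.map_cons] at h2
      rw [List.map_cons, phi_succ, phi_succ, ← h2, bd_mapc, ih]
      have h1 : χ (-(v.2 + g)) * χ g = χ (-v.2) := by
        rw [← AddChar.map_add_eq_mul]; congr 1; abel
      simp only [← mul_assoc, h1]
      rw [AddChar.map_add_eq_mul, mul_comm (χ v.2)]

lemma phi_spec (th : ℕ → M) (χ : AddChar G M)
    (hann : ∀ k r, th k * r = 0 → ∃ r', th (k + 1) * r' = r) (k : ℕ) :
    ∀ c : Ch R (I × G), c ∈ Sp R {s | s.length = k + 1} →
      th k * phi R th χ (k + 1) c = phi R th χ k (bd c) := by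
  have fin : ∀ (k : ℕ) (v : I × G) (t : List (I × G)),
      (∃ r', th k * r' = phi R th χ k (bd (e R (v :: t)))) →
      th k * phi R th χ (k + 1) (e R (v :: t)) = phi R th χ k (bd (e R (v :: t))) := by
    intro k v t ⟨r', hr'⟩
    have hex : ∃ r'', th k * r'' = χ (-v.2) * phi R th χ k (bd (e R (v :: t))) :=
      ⟨χ (-v.2) * r', by rw [← hr']; ring⟩
    have := Classical.epsilon_spec hex
    rw [phi_succ, mul_left_comm, this, ← mul_assoc, ← AddChar.map_add_eq_mul]
    simp
  induction k with
  | zero =>
    intro c hc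
    refine Sp_eq (LinearMap.mulLeft R (th 0) ∘ₗ phi R th χ 1) (phi R th χ 0 ∘ₗ bd)
      (fun l hl => ?_) hc
    obtain ⟨v, rfl⟩ := List.length_eq_one_iff.mp hl
    exact fin 0 v [] ⟨1, by simp [bd_e_cons, phi]⟩
  | succ k ih =>
    intro c hc
    refine Sp_eq (LinearMap.mulLeft R (th (k + 1)) ∘ₗ phi R th χ (k + 2))
      (phi R th χ (k + 1) ∘ₗ bd) (fun l hl => ?_) hc
    cases l with
    | nil => exact absurd hl (by simp)
    | cons v t =>
      refine fin (k + 1) v t (hann k _ ?_)
      rw [ih _ (Sp_mono ?_ (bd_mem _)), bd_bd, map_zero]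
      intro s hs
      have h1 := hs.2
      simp only [Set.mem_ofPred_eq] at hl ⊢
      omega

end Phi

end Pool.Agent.P.MP_4d0e60_an
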