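import Mathlib
import Pool.Agent.P.MP_4d0e60_an.Alg

set_option autoImplicit false

namespace Pool.Agent.P.MP_4d0e60_an

open Polynomial

lemma exists_ring (p : ℕ) [Fact p.Prime] :
    ∃ (M : Type) (_ : CommRing M) (_ : Algebra (ZMod p) M) (x : M), x ^ p = 0 ∧ (1 : M) ≠ 0 ∧
      (1 + x) ^ p = 1 ∧ ∀ a b : ℕ, a + b = p → ∀ r, x ^ a * r = 0 → ∃ r', x ^ b * r' = r := by
  have hp : p.Prime := Fact.out
  have hx : (AdjoinRoot.root (X ^ p : (ZMod p)[X])) ^ p = 0 := by
    rw [← AdjoinRoot.mk_X, ← map_pow, AdjoinRoot.mk_self]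
  refine ⟨AdjoinRoot (X ^ p : (ZMod p)[X]), inferInstance, inferInstance, AdjoinRoot.root _,
    hx, ?_, ?_, ?_⟩
  · have := AdjoinRoot.nontrivial (f := (X ^ p : (ZMod p)[X])) (by
      rw [degree_X_pow]; exact_mod_cast hp.ne_zero)
    exact one_ne_zero
  · have : ((1 : (ZMod p)[X]) + X) ^ p = 1 + X ^ p := by rw [add_pow_char, one_pow]
    have h2 := congrArg (AdjoinRoot.mk (X ^ p : (ZMod p)[X])) this
    rw [map_pow, map_add, map_add, AdjoinRoot.mk_self, map_one, AdjoinRoot.mk_X, add_zero] at h2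
    exact h2
  · intro a b hab r hr
    obtain ⟨f, rfl⟩ := AdjoinRoot.mk_surjective r
    rw [← AdjoinRoot.mk_X, ← map_pow, ← map_mul, AdjoinRoot.mk_eq_zero] at hr
    have h1 : (X ^ a * X ^ b : (ZMod p)[X]) ∣ X ^ a * f := by
      rw [← pow_add, hab]; exact hr
    obtain ⟨g, hg⟩ := (mul_dvd_mul_iff_left (pow_ne_zero a X_ne_zero)).mp h1
    exact ⟨AdjoinRoot.mk _ g, by rw [hg, map_mul, map_pow, AdjoinRoot.mk_X]⟩

lemma mapc_pow {R Y : Type} [CommRing R] (T : Y → Y) (j : ℕ) (c : Ch R Y) :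
    ((mapc T : Module.End R (Ch R Y)) ^ j) c = mapc (T^[j]) c := by
  induction j generalizing c with
  | zero => simp [mapc_id]
  | succ j ih => rw [pow_succ, Module.End.mul_apply, ih, mapc_mapc, Function.iterate_succ]

lemma core (p : ℕ) [Fact p.Prime] {Y : Type} (T : Y → Y) (hT : T^[p] = id) (n N : ℕ)
    (r : ℕ → Y → Y → Prop)
    (hinv : ∀ k u v, r k u v → r k (T u) (T v))
    (hfill : ∀ k < N, ∀ z ∈ Sp (ZMod p) (Sm k (r k)), bd z = 0 →
      ∃ c ∈ Sp (ZMod p) (Sm (k + 1) (r (k + 1))), bd c = z)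
    (lab : Y → Fin (n + 1) × ZMod p)
    (heq : ∀ k ≤ N, ∀ y, r k y y → lab (T y) = ((lab y).1, (lab y).2 + 1))
    (hgood : ∀ k ≤ N, ∀ u v, r k u v → (lab u).1 = (lab v).1 → lab u = lab v) : N ≤ n + 1 := by
  have hp : p.Prime := Fact.out
  by_contra hN
  obtain ⟨M, _, _, x, hxp, hone, hu, hann⟩ := exists_ring p
  set ex : ℕ → ℕ := fun k => if k % 2 = 0 then p - 1 else 1 with hex
  have hexsum : ∀ k, ex k + ex (k + 1) = p := by
    intro k
    have := hp.two_le
    simp only [hex]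
    split_ifs <;> omega
  have hexpos : ∀ k, 1 ≤ ex k := by
    intro k
    have := hp.two_le
    simp only [hex]
    split_ifs <;> omega
  set th : ℕ → M := fun k => x ^ ex k with hth
  set χ : AddChar (ZMod p) M := AddChar.zmodChar p hu with hχ
  have hχ1 : χ 1 = 1 + x := by
    rw [hχ, AddChar.zmodChar_apply, ZMod.val_one, pow_one]
  have hann' : ∀ k r, th k * r = 0 → ∃ r', th (k + 1) * r' = r :=
    fun k r h => hann _ _ (hexsum k) r h
  have h0 : χ 1 * th 0 = th 0 := by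
    have : x * x ^ (p - 1) = 0 := by
      rw [← pow_succ', Nat.sub_add_cancel hp.one_le, hxp]
    simp only [hχ1, hth, hex, Nat.zero_mod, if_true, add_mul, this, one_mul, add_zero]
  set D : Module.End (ZMod p) (Ch (ZMod p) Y) := mapc T - 1 with hD
  have hDp : D ^ p = 0 := by
    have : Nontrivial (Ch (ZMod p) Y) := inferInstance
    have : CharP (Module.End (ZMod p) (Ch (ZMod p) Y)) p :=
      charP_of_injective_algebraMap' (ZMod p) p
    have h1 := sub_pow_char_of_commute (R := Module.End (ZMod p) (Ch (ZMod p) Y)) p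
      (x := mapc T) (y := 1) (Commute.one_right _)
    have h2 : ((mapc T : Module.End (ZMod p) (Ch (ZMod p) Y))) ^ p = 1 := by
      apply LinearMap.ext
      intro c
      rw [mapc_pow, hT, mapc_id, Module.End.one_apply]
    rw [h2, one_pow, sub_self] at h1
    exact h1
  have hDapp : ∀ c, D c = mapc T c - c := fun c => by simp [hD]
  have hDmem : ∀ k j, ∀ c ∈ Sp (ZMod p) (Sm k (r k)), (D ^ j) c ∈ Sp (ZMod p) (Sm k (r k)) := by
    intro k j
    induction j with
    | zero => intro c hc; simpa using hc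
    | succ j ih =>
      intro c hc
      rw [pow_succ, Module.End.mul_apply]
      apply ih
      rw [hDapp]
      refine Submodule.sub_mem _ (Sp_map _ _ (fun l hl => ?_) hc) hc
      rw [mapc_e]
      refine e_mem ⟨by simp [hl.1], fun u hu v hv => ?_⟩
      obtain ⟨u', hu', rfl⟩ := List.mem_map.mp hu
      obtain ⟨v', hv', rfl⟩ := List.mem_map.mp hv
      exact hinv k _ _ (hl.2 u' hu' v' hv')
  have hDbd : ∀ j c, bd ((D ^ j) c) = (D ^ j) (bd c) := by
    intro j
    induction j with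
    | zero => intro c; simp
    | succ j ih =>
      intro c
      rw [pow_succ, Module.End.mul_apply, Module.End.mul_apply, ih, hDapp, hDapp, map_sub, bd_mapc]
  set Φ : ℕ → (Ch (ZMod p) Y →ₗ[ZMod p] M) :=
    fun k => phi (ZMod p) th χ k ∘ₗ psi (ZMod p) k ∘ₗ mapc lab with hΦ
  have hΦapp : ∀ k c, Φ k c = phi (ZMod p) th χ k (psi (ZMod p) k (mapc lab c)) := fun k c => rfl
  have hlabmem : ∀ k ≤ N, ∀ c ∈ Sp (ZMod p) (Sm k (r k)), mapc lab c ∈ Sp (ZMod p) (Good k) := by
    intro k hk c hc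
    refine Sp_map _ _ (fun l hl => ?_) hc
    rw [mapc_e]
    refine e_mem ⟨by simp [hl.1], fun u hu v hv => ?_⟩
    obtain ⟨u', hu', rfl⟩ := List.mem_map.mp hu
    obtain ⟨v', hv', rfl⟩ := List.mem_map.mp hv
    exact hgood k hk _ _ (hl.2 u' hu' v' hv')
  have hΦD : ∀ k ≤ N, ∀ c ∈ Sp (ZMod p) (Sm k (r k)), Φ k (D c) = x * Φ k c := by
    intro k hk c hc
    have h1 : mapc lab (mapc T c) =
        mapc (fun u : Fin (n + 1) × ZMod p => (u.1, u.2 + 1)) (mapc lab c) := by
      rw [mapc_mapc, mapc_mapc]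
      refine Sp_eq _ _ (fun l hl => ?_) hc
      rw [mapc_e, mapc_e]
      congr 1
      exact List.map_congr_left (fun y hy => heq k hk y (hl.2 y hy y hy))
    rw [hDapp, map_sub, hΦapp, hΦapp, h1, 
      psi_mapc (fun u : Fin (n + 1) × ZMod p => (u.1, u.2 + 1)) (fun _ => rfl), phi_mapc th χ 1 h0, hχ1]
    · ring
    · intro a b hab
      simp only [Prod.mk.injEq, add_left_inj] at hab
      exact Prod.ext hab.1 hab.2
  have hΦDj : ∀ k ≤ N, ∀ j, ∀ c ∈ Sp (ZMod p) (Sm k (r k)), Φ k ((D ^ j) c) = x ^ j * Φ k c := by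
    intro k hk j
    induction j with
    | zero => intro c _; simp
    | succ j ih =>
      intro c hc
      rw [pow_succ', Module.End.mul_apply, hΦD k hk _ (hDmem k j c hc), ih c hc]
      ring
  have hΦbd : ∀ k, k + 1 ≤ N → ∀ c ∈ Sp (ZMod p) (Sm (k + 1) (r (k + 1))),
      th k * Φ (k + 1) c = Φ k (bd c) := by
    intro k hk c hc
    have h1 := hlabmem (k + 1) hk c hc
    rw [hΦapp, hΦapp, phi_spec th χ hann' k _ (psi_len _ h1), bd_psi _ h1, bd_mapc]
  have hdiv : ∀ k (a : M), th k * a = 0 → x ∣ a := by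
    intro k a ha
    obtain ⟨r', hr'⟩ := hann' k a ha
    rw [← hr']
    exact Dvd.dvd.mul_right (dvd_pow_self x (by have := hexpos (k + 1); omega)) _
  have main : ∀ k, k + 1 ≤ N → ∃ c ∈ Sp (ZMod p) (Sm (k + 1) (r (k + 1))),
      (D ^ ex (k + 1)) (bd c) = 0 ∧ x ∣ Φ (k + 1) c - 1 := by
    intro k
    induction k with
    | zero =>
      intro hk
      obtain ⟨c, hc, hbc⟩ := hfill 0 hk (e (ZMod p) []) (e_mem ⟨rfl, by simp⟩) bd_nil
      refine ⟨c, hc, ?_, hdiv 0 _ ?_⟩
      · rw [hbc]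
        simp [hex, hDapp]
      · rw [mul_sub, hΦbd 0 hk c hc, hbc, hΦapp]
        simp [psi, phi]
    | succ k ih =>
      intro hk
      obtain ⟨c, hc, hbc, hdv⟩ := ih (by omega)
      obtain ⟨c', hc', hbc'⟩ := hfill (k + 1) hk ((D ^ ex (k + 1)) c) (hDmem _ _ c hc)
        (by rw [hDbd, hbc])
      refine ⟨c', hc', ?_, ?_⟩
      · rw [hbc', ← Module.End.mul_apply, ← pow_add, add_comm, hexsum, hDp]
        rfl
      · have h1 : x ∣ Φ (k + 1 + 1) c' - Φ (k + 1) c := by
          refine hdiv (k + 1) _ ?_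
          rw [mul_sub, hΦbd (k + 1) hk c' hc', hbc', hΦDj (k + 1) (by omega) _ c hc, sub_self]
        have := dvd_add h1 hdv
        simpa using this
  obtain ⟨c, hc, _, hdv⟩ := main (n + 1) (by omega)
  have hz : Φ (n + 1 + 1) c = 0 := by
    rw [hΦapp, psi_zero (n + 1 + 1) (by simp) (hlabmem _ (by omega) c hc), map_zero]
  rw [hz, zero_sub, dvd_neg] at hdv
  have := pow_dvd_pow_of_dvd hdv p
  rw [hxp, one_pow, zero_dvd_iff] at this
  exact hone this

end Pool.Agent.P.MP_4d0e60_an
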