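import Mathlib

set_option autoImplicit false

namespace Pool.Agent.P.MP_4d0e60_an

/-- `E_n Z_p`: the join of `n+1` copies of the discrete space `Z_p`, realised as the set of formal
convex combinations of the vertices `(j, a)` that use at most one vertex `a` in each copy `j`. -/
def EJoin (p : ℕ) [NeZero p] (n : ℕ) : Set (Fin (n + 1) → ZMod p → ℝ) :=
  {w | (∀ j a, 0 ≤ w j a) ∧ ∑ j, ∑ a, w j a = 1 ∧ ∀ j a b, w j a ≠ 0 → w j b ≠ 0 → a = b}

/-- The generator of the diagonal action: it moves the vertex `(j, a)` to `(j, a + 1)`. -/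
def rot (p n : ℕ) (w : Fin (n + 1) → ZMod p → ℝ) : Fin (n + 1) → ZMod p → ℝ :=
  fun j a => w j (a - 1)

/-- There is a continuous map from `A` to `B` that intertwines `S` and `R`. -/
def EqvMap {X Y : Type} [TopologicalSpace X] [TopologicalSpace Y]
    (A : Set X) (S : X → X) (B : Set Y) (R : Y → Y) : Prop :=
  ∃ f : X → Y, ContinuousOn f A ∧ Set.MapsTo f A B ∧ ∀ x ∈ A, f (S x) = R (f x)

/-- `A` is `n`-connected: nonempty, with trivial homotopy groups in degrees `0, ..., n`. -/
def NConn (A : Type) [TopologicalSpace A] (n : ℕ) : Prop :=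
  Nonempty A ∧ ∀ i ≤ n, ∀ x : A, Subsingleton (HomotopyGroup.Pi i A x)

end Pool.Agent.P.MP_4d0e60_an
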