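import Mathlib
import Pool.Agent.P.MP_4d0e60_an.Core
import Pool.Agent.P.MP_4d0e60_an.Defs

set_option autoImplicit false

namespace Pool.Agent.P.MP_4d0e60_an

open Finset

variable {p : ℕ}

lemma rot_iter (n j : ℕ) (w : Fin (n + 1) → ZMod p → ℝ) :
    (rot p n)^[j] w = fun i a => w i (a - j) := by
  induction j generalizing w with
  | zero => simp
  | succ j ih =>
    rw [Function.iterate_succ_apply, ih]
    funext i a
    simp only [rot]
    congr 1
    push_cast
    ring

lemma rot_iter_p (n : ℕ) : (rot p n)^[p] = id := by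
  funext w
  rw [rot_iter]
  simp

lemma sum_rot [NeZero p] (f : ZMod p → ℝ) : ∑ a, f (a - 1) = ∑ a, f a :=
  Equiv.sum_comp (Equiv.subRight (1 : ZMod p)) f

lemma rot_mem [NeZero p] {n : ℕ} {w : Fin (n + 1) → ZMod p → ℝ} (hw : w ∈ EJoin p n) :
    rot p n w ∈ EJoin p n := by
  refine ⟨fun j a => hw.1 j _, ?_, fun j a b ha hb => ?_⟩
  · rw [← hw.2.1]
    exact sum_congr rfl (fun j _ => sum_rot (w j))
  · have := hw.2.2 j _ _ ha hb
    simpa using this

lemma EJoin_le_one [NeZero p] {n : ℕ} {w : Fin (n + 1) → ZMod p → ℝ} (hw : w ∈ EJoin p n)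
    (j : Fin (n + 1)) (a : ZMod p) : w j a ≤ 1 := by
  rw [← hw.2.1]
  calc w j a ≤ ∑ a, w j a := single_le_sum (fun a _ => hw.1 j a) (mem_univ a)
    _ ≤ _ := single_le_sum (f := fun j => ∑ a, w j a)
        (fun j _ => sum_nonneg (fun a _ => hw.1 j a)) (mem_univ j)

lemma dist_EJoin [NeZero p] {n : ℕ} {w w' : Fin (n + 1) → ZMod p → ℝ} (hw : w ∈ EJoin p n)
    (hw' : w' ∈ EJoin p n) : dist w w' ≤ 1 := by
  rw [dist_pi_le_iff zero_le_one]
  intro j
  rw [dist_pi_le_iff zero_le_one]
  intro a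
  rw [Real.dist_eq, abs_le]
  have := hw.1 j a
  have := hw'.1 j a
  have := EJoin_le_one hw j a
  have := EJoin_le_one hw' j a
  constructor <;> linarith

lemma compact_EJoin [NeZero p] (n : ℕ) : IsCompact (EJoin p n) := by
  apply Metric.isCompact_of_isClosed_isBounded
  · have : EJoin p n = (⋂ j, ⋂ a, {w : Fin (n + 1) → ZMod p → ℝ | 0 ≤ w j a}) ∩
        ({w | ∑ j, ∑ a, w j a = 1} ∩ ⋂ j, ⋂ a, ⋂ b, ⋂ (_ : a ≠ b), {w | w j a * w j b = 0}) := by
      ext w
      simp only [EJoin, Set.mem_ofPred_eq, Set.mem_inter_iff, Set.mem_iInter, mul_eq_zero]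
      refine and_congr Iff.rfl (and_congr Iff.rfl (forall₃_congr fun j a b => ?_))
      tauto
    rw [this]
    refine IsClosed.inter (isClosed_iInter fun j => isClosed_iInter fun a => ?_)
      (IsClosed.inter ?_ (isClosed_iInter fun j => isClosed_iInter fun a =>
        isClosed_iInter fun b => isClosed_iInter fun _ => ?_))
    · exact isClosed_le continuous_const (by fun_prop)
    · exact isClosed_eq (by fun_prop) continuous_const
    · exact isClosed_eq (by fun_prop) continuous_const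
  · exact Metric.isBounded_iff.mpr ⟨1, fun _ hx _ hy => dist_EJoin hx hy⟩

lemma exists_label [NeZero p] (n : ℕ) :
    ∃ lab : (Fin (n + 1) → ZMod p → ℝ) → Fin (n + 1) × ZMod p,
      (∀ w ∈ EJoin p n, lab (rot p n w) = ((lab w).1, (lab w).2 + 1)) ∧
      ∀ w ∈ EJoin p n, 1 / ((n : ℝ) + 1) ≤ w (lab w).1 (lab w).2 := by
  classical
  choose J hJ using fun t : Fin (n + 1) → ℝ => Finite.exists_max t
  let row : (Fin (n + 1) → ZMod p → ℝ) → Fin (n + 1) := fun w => J (fun j => ∑ a, w j a)
  let col : (Fin (n + 1) → ZMod p → ℝ) → ZMod p :=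
    fun w => Classical.epsilon (fun a => w (row w) a ≠ 0)
  have hpos : (0 : ℝ) < 1 / ((n : ℝ) + 1) := by positivity
  have hrow : ∀ w ∈ EJoin p n, 1 / ((n : ℝ) + 1) ≤ ∑ a, w (row w) a := by
    intro w hw
    have h1 : ∑ j, ∑ a, w j a ≤ ∑ _j : Fin (n + 1), ∑ a, w (row w) a :=
      sum_le_sum (fun j _ => hJ (fun j => ∑ a, w j a) j)
    rw [hw.2.1, sum_const, card_univ, Fintype.card_fin, nsmul_eq_mul] at h1
    rw [div_le_iff₀ (by positivity)]
    push_cast at h1
    linarith
  have hcol : ∀ w ∈ EJoin p n, w (row w) (col w) ≠ 0 := by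
    intro w hw
    apply Classical.epsilon_spec (p := fun a => w (row w) a ≠ 0)
    by_contra hcon
    push Not at hcon
    have := hrow w hw
    simp only [hcon, sum_const_zero] at this
    linarith
  have hrr : ∀ w, row (rot p n w) = row w := by
    intro w
    simp only [row, rot]
    congr 1
    funext j
    exact sum_rot (w j)
  refine ⟨fun w => (row w, col w), fun w hw => ?_, fun w hw => ?_⟩
  · refine Prod.ext (hrr w) ?_
    have h1 := hcol _ (rot_mem hw)
    rw [hrr] at h1
    have h2 := hw.2.2 _ _ _ h1 (hcol w hw)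
    simp only
    rw [← h2]
    ring
  · refine (hrow w hw).trans (le_of_eq ?_)
    apply sum_eq_single
    · intro b _ hb
      by_contra hcon
      exact hb (hw.2.2 _ _ _ hcon (hcol w hw))
    · simp

/-- The Borsuk-Ulam theorem for `Z_p`. -/
theorem BU [Fact p.Prime] {N n : ℕ}
    (h : EqvMap (EJoin p N) (rot p N) (EJoin p n) (rot p n)) : N ≤ n := by
  classical
  obtain ⟨g, hgc, hgm, hge⟩ := h
  obtain ⟨lab, hlab1, hlab2⟩ := exists_label (p := p) n
  have huc := (compact_EJoin (p := p) N).uniformContinuousOn_of_continuous hgc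
  obtain ⟨δ, hδ, hδ'⟩ := Metric.uniformContinuousOn_iff.mp huc (1 / ((n : ℝ) + 1)) (by positivity)
  obtain ⟨M, hM⟩ := exists_nat_gt (((N : ℝ) + 1) / δ)
  have hMpos : (0 : ℝ) < M := lt_trans (by positivity) hM
  let r : ℕ → (Fin (N + 1) → ZMod p → ℝ) → (Fin (N + 1) → ZMod p → ℝ) → Prop := fun k u v =>
    (u ∈ EJoin p N ∧ ∀ j : Fin (N + 1), k ≤ j.val → ∀ a, u j a = 0) ∧
    (v ∈ EJoin p N ∧ ∀ j : Fin (N + 1), k ≤ j.val → ∀ a, v j a = 0) ∧ dist u v ≤ k / M
  have key := core p (rot p N) (rot_iter_p N) n (N + 1) r ?_ ?_ (fun w => lab (g w)) ?_ ?_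
  · omega
  · rintro k u v ⟨hu, hv, hd⟩
    refine ⟨⟨rot_mem hu.1, fun j hj a => hu.2 j hj _⟩, ⟨rot_mem hv.1, fun j hj a => hv.2 j hj _⟩,
      le_trans ?_ hd⟩
    rw [dist_pi_le_iff dist_nonneg]
    intro j
    rw [dist_pi_le_iff dist_nonneg]
    intro a
    exact (dist_le_pi_dist (u j) (v j) (a - 1)).trans (dist_le_pi_dist u v j)
  · intro k hk z hz hbd
    let v : Fin (N + 1) → ZMod p → ℝ := fun j a => if j.val = k ∧ a = 0 then 1 else 0
    have hv : v ∈ EJoin p N := by
      refine ⟨fun j a => ?_, ?_, fun j a b ha hb => ?_⟩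
      · simp only [v]; split_ifs <;> norm_num
      · rw [sum_eq_single ⟨k, hk⟩]
        · simp [v]
        · intro j _ hj
          have : j.val ≠ k := fun h => hj (Fin.ext h)
          simp [v, this]
        · simp
      · simp only [v, ne_eq, ite_eq_right_iff, one_ne_zero, imp_false, not_not] at ha hb
        rw [ha.2, hb.2]
    have hv2 : ∀ j : Fin (N + 1), k + 1 ≤ j.val → ∀ a, v j a = 0 := by
      intro j hj a
      have : j.val ≠ k := by omega
      simp [v, this]
    let H : ℕ → (Fin (N + 1) → ZMod p → ℝ) → (Fin (N + 1) → ZMod p → ℝ) :=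
      fun i y => AffineMap.lineMap y v ((i : ℝ) / M)
    have hH : ∀ i ≤ M, ∀ y, (y ∈ EJoin p N ∧ ∀ j : Fin (N + 1), k ≤ j.val → ∀ a, y j a = 0) →
        (H i y ∈ EJoin p N ∧ ∀ j : Fin (N + 1), k + 1 ≤ j.val → ∀ a, H i y j a = 0) := by
      intro i hi y hy
      have hs0 : (0 : ℝ) ≤ (i : ℝ) / M := by positivity
      have hs1 : (i : ℝ) / M ≤ 1 := by
        rw [div_le_one hMpos]; exact_mod_cast hi
      have hval : ∀ j a, H i y j a = (1 - (i : ℝ) / M) * y j a + (i : ℝ) / M * v j a := by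
        intro j a
        simp only [H, AffineMap.lineMap_apply_module, Pi.add_apply, Pi.smul_apply, smul_eq_mul]
      refine ⟨⟨fun j a => ?_, ?_, fun j a b ha hb => ?_⟩, fun j hj a => ?_⟩
      · rw [hval]
        have := hy.1.1 j a
        have := hv.1 j a
        have : 0 ≤ 1 - (i : ℝ) / M := by linarith
        positivity
      · simp only [hval, sum_add_distrib, ← mul_sum, hy.1.2.1, hv.2.1]
        ring
      · rw [hval] at ha hb
        by_cases hj : j.val = k
        · rw [hy.2 j hj.ge, mul_zero, zero_add] at ha hb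
          exact hv.2.2 j a b (right_ne_zero_of_mul ha) (right_ne_zero_of_mul hb)
        · have hz : ∀ a, v j a = 0 := fun a => by simp [v, hj]
          rw [hz, mul_zero, add_zero] at ha hb
          exact hy.1.2.2 j a b (right_ne_zero_of_mul ha) (right_ne_zero_of_mul hb)
      · rw [hval, hy.2 j (by omega), hv2 j hj]
        ring
    refine fill (r k) (r (k + 1)) H M v ?_ ?_ ?_ ?_ k z hz hbd
    · intro y _
      simp [H]
    · intro y _
      simp [H, div_self hMpos.ne']
    · refine ⟨⟨hv, hv2⟩, ⟨hv, hv2⟩, ?_⟩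
      rw [dist_self]; positivity
    · intro i hi y y' hyy a ha b hb
      have ha' : a ≤ M := by rcases ha with rfl | rfl <;> omega
      have hb' : b ≤ M := by rcases hb with rfl | rfl <;> omega
      refine ⟨hH a ha' y hyy.1, hH b hb' y' hyy.2.1, ?_⟩
      have h1 : dist (H a y) (H a y') ≤ dist y y' := by
        have hs0 : (0 : ℝ) ≤ (a : ℝ) / M := by positivity
        have hs1 : (a : ℝ) / M ≤ 1 := by
          rw [div_le_one hMpos]; exact_mod_cast ha'
        simp only [H, AffineMap.lineMap_apply_module, dist_add_right, dist_smul₀]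
        rw [Real.norm_eq_abs, abs_of_nonneg (by linarith)]
        nlinarith [dist_nonneg (x := y) (y := y')]
      have h2 : dist (H a y') (H b y') ≤ 1 / M := by
        simp only [H, dist_lineMap_lineMap]
        have h3 := dist_EJoin hyy.2.1.1 hv
        have h4 : dist ((a : ℝ) / M) ((b : ℝ) / M) ≤ 1 / M := by
          rw [Real.dist_eq, ← sub_div, abs_div, abs_of_pos hMpos]
          gcongr
          rcases ha with rfl | rfl <;> rcases hb with rfl | rfl <;> simp
        calc _ ≤ 1 / (M : ℝ) * 1 := by gcongr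
          _ = _ := mul_one _
      calc dist (H a y) (H b y') ≤ dist (H a y) (H a y') + dist (H a y') (H b y') :=
            dist_triangle _ _ _
        _ ≤ k / M + 1 / M := add_le_add (h1.trans hyy.2.2) h2
        _ = ((k + 1 : ℕ) : ℝ) / M := by push_cast; ring
  · intro k _ y hy
    rw [hge y hy.1.1, hlab1 _ (hgm hy.1.1)]
  · intro k hk u v huv hrow
    have hd : dist u v < δ := by
      refine huv.2.2.trans_lt ?_
      rw [div_lt_iff₀ hMpos]
      rw [div_lt_iff₀ hδ] at hM
      have : (k : ℝ) ≤ (N : ℝ) + 1 := by exact_mod_cast hk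
      linarith
    have h1 := hδ' u huv.1.1 v huv.2.1.1 hd
    have h2 := hlab2 _ (hgm huv.1.1)
    have h3 := hlab2 _ (hgm huv.2.1.1)
    have h4 : dist (g u (lab (g u)).1 (lab (g u)).2) (g v (lab (g u)).1 (lab (g u)).2) <
        1 / ((n : ℝ) + 1) :=
      ((dist_le_pi_dist _ _ _).trans (dist_le_pi_dist (g u) (g v) _)).trans_lt h1
    rw [Real.dist_eq, abs_lt] at h4
    have hpos : (0 : ℝ) < 1 / ((n : ℝ) + 1) := by positivity
    refine Prod.ext hrow ((hgm huv.2.1.1).2.2 (lab (g v)).1 _ _ ?_ ?_)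
    · rw [← hrow]
      have := h4.2
      intro h0
      rw [h0] at this
      linarith
    · intro h0
      rw [h0] at h3
      linarith

end Pool.Agent.P.MP_4d0e60_an
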