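import Mathlib

set_option autoImplicit false

namespace Pool.Agent.P.MP_4d0e60_an

open Finset unitInterval

variable {V : Type} [NormedAddCommGroup V] [NormedSpace ℝ V] [FiniteDimensional ℝ V]

/-- A smooth function vanishing exactly on the boundary of the cube. -/
noncomputable def bump (k : ℕ) (s : Fin k → ℝ) : ℝ := ∏ i, s i * (1 - s i)

lemma bump_nonneg (k : ℕ) (t : Fin k → I) : 0 ≤ bump k (fun i => t i) :=
  prod_nonneg (fun i _ => mul_nonneg (t i).2.1 (by linarith [(t i).2.2]))

lemma bump_le_one (k : ℕ) (t : Fin k → I) : bump k (fun i => t i) ≤ 1 :=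
  prod_le_one (fun i _ => mul_nonneg (t i).2.1 (by linarith [(t i).2.2]))
    (fun i _ => by nlinarith [(t i).2.1, (t i).2.2])

lemma bump_eq_zero (k : ℕ) (t : Fin k → I) :
    bump k (fun i => t i) = 0 ↔ t ∈ Cube.boundary (Fin k) := by
  simp only [bump, prod_eq_zero_iff, mem_univ, true_and, mul_eq_zero, Cube.boundary,
    Set.mem_ofPred_eq, sub_eq_zero]
  refine exists_congr (fun i => or_congr ?_ ?_)
  · exact ⟨fun h => Subtype.ext h, fun h => by rw [h]; rfl⟩
  · exact ⟨fun h => Subtype.ext h.symm, fun h => by rw [h]; rfl⟩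

lemma bump_cont (k : ℕ) : Continuous (fun t : Fin k → I => bump k (fun i => t i)) := by
  unfold bump
  fun_prop

lemma exists_smooth (k : ℕ) (x0 : V) (F : (Fin k → I) → V) (hF : Continuous F)
    (hF2 : ∀ t, ‖F t - x0‖ ≤ 2) (hb : ∀ t ∈ Cube.boundary (Fin k), F t = x0) :
    ∃ g : (Fin k → ℝ) → V, ContDiff ℝ 1 g ∧ (∀ t : Fin k → I, ‖g (fun i => t i) - F t‖ < 1) ∧
      ∀ t ∈ Cube.boundary (Fin k), g (fun i => t i) = x0 := by
  have hK : IsCompact {t : Fin k → I | 1 / 2 ≤ ‖F t - x0‖} :=
    (isClosed_le continuous_const (by fun_prop)).isCompact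
  obtain ⟨β, hβ, hβ'⟩ := hK.exists_forall_le' (bump_cont k).continuousOn (a := 0) (by
    intro t ht
    refine lt_of_le_of_ne (bump_nonneg k t) (fun h => ?_)
    have := hb t ((bump_eq_zero k t).mp h.symm)
    simp only [Set.mem_ofPred_eq, this, sub_self, norm_zero] at ht
    linarith)
  let u : (Fin k → I) → V := fun t => (bump k (fun i => t i) + β / 4)⁻¹ • (F t - x0)
  have hpos : ∀ t : Fin k → I, 0 < bump k (fun i => t i) + β / 4 := fun t => by
    have := bump_nonneg k t
    linarith
  have hu : Continuous u := by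
    have := bump_cont k
    exact ((this.add continuous_const).inv₀ (fun t => (hpos t).ne')).smul (hF.sub continuous_const)
  let pr : (Fin k → ℝ) → (Fin k → I) := fun s i => Set.projIcc 0 1 zero_le_one (s i)
  have hpr : UniformContinuous pr := by
    rw [uniformContinuous_pi]
    intro i
    exact (LipschitzWith.projIcc zero_le_one).uniformContinuous.comp (Pi.uniformContinuous_proj _ i)
  have hprt : ∀ t : Fin k → I, pr (fun i => t i) = t := by
    intro t
    funext i
    simp [pr]
  obtain ⟨P, hP, hP'⟩ := ((CompactSpace.uniformContinuous_of_continuous hu).comp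
    hpr).exists_contDiff_dist_le (ε := 1 / 2) (by norm_num)
  refine ⟨fun s => x0 + bump k s • P s, ?_, fun t => ?_, fun t ht => ?_⟩
  · have h1 : ContDiff ℝ 1 P := hP.of_le (by exact_mod_cast le_top)
    have h2 : ContDiff ℝ 1 (bump k) := by
      unfold bump
      apply contDiff_prod
      intro i _
      fun_prop
    exact contDiff_const.add (h2.smul h1)
  · have h1 := hP' (fun i => t i)
    rw [Function.comp_apply, hprt, dist_eq_norm] at h1
    set b := bump k (fun i => t i) with hbdef
    have hb0 : 0 ≤ b := bump_nonneg k t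
    have hb1 : b ≤ 1 := bump_le_one k t
    have hbp : 0 < b + β / 4 := hpos t
    have h2 : x0 + b • P (fun i => t i) - F t =
        b • (P (fun i => t i) - u t) - (β / 4 / (b + β / 4)) • (F t - x0) := by
      have h3 : β / 4 / (b + β / 4) = 1 - b * (b + β / 4)⁻¹ := by field_simp; ring
      simp only [u, ← hbdef, h3, smul_sub, sub_smul, one_smul, smul_smul]
      abel
    simp only
    rw [h2]
    refine (norm_sub_le _ _).trans_lt ?_
    rw [norm_smul, norm_smul, Real.norm_of_nonneg hb0, Real.norm_of_nonneg (by positivity)]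
    have h4 : b * ‖P (fun i => t i) - u t‖ ≤ 1 * ‖P (fun i => t i) - u t‖ := by gcongr
    have h5 : β / 4 / (b + β / 4) * ‖F t - x0‖ ≤ 1 / 2 := by
      rw [div_mul_eq_mul_div, div_le_iff₀ hbp]
      by_cases h : 1 / 2 ≤ ‖F t - x0‖
      · have := hβ' t h
        have := hF2 t
        nlinarith
      · nlinarith [not_le.mp h, norm_nonneg (F t - x0)]
    linarith
  · simp only
    rw [(bump_eq_zero k t).mpr ht, zero_smul, add_zero]

theorem sphere_loops (k : ℕ) (hk : k + 1 < Module.finrank ℝ V) (x0 : Metric.sphere (0 : V) 1)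
    (f : GenLoop (Fin k) (Metric.sphere (0 : V) 1) x0) : GenLoop.Homotopic f GenLoop.const := by
  let F : (Fin k → I) → V := fun t => f t
  have hFc : Continuous F := continuous_subtype_val.comp f.1.continuous
  have hF1 : ∀ t, ‖F t‖ = 1 := fun t => norm_eq_of_mem_sphere _
  have hx1 : ‖(x0 : V)‖ = 1 := norm_eq_of_mem_sphere _
  have hFb : ∀ t ∈ Cube.boundary (Fin k), F t = x0 := fun t ht => by
    simp only [F, GenLoop.boundary f t ht]
  obtain ⟨g, hg, hgF, hgb⟩ := exists_smooth k (x0 : V) F hFc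
    (fun t => (norm_sub_le _ _).trans (by rw [hF1, hx1]; norm_num)) hFb
  obtain ⟨q, hq⟩ : ∃ q : V, q ∉ Set.range (fun x : ℝ × (Fin k → ℝ) => x.1 • g x.2) ∪
      Set.range (fun s : ℝ => s • (x0 : V)) := by
    have h1 : ContDiff ℝ 1 (fun x : ℝ × (Fin k → ℝ) => x.1 • g x.2) :=
      contDiff_fst.smul (hg.comp contDiff_snd)
    have h2 : ContDiff ℝ 1 (fun s : ℝ => s • (x0 : V)) := contDiff_id.smul contDiff_const
    have h3 := dense_compl_of_dimH_lt_finrank
      (s := Set.range (fun x : ℝ × (Fin k → ℝ) => x.1 • g x.2) ∪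
        Set.range (fun s : ℝ => s • (x0 : V))) (by
      rw [dimH_union, max_lt_iff]
      refine ⟨h1.dimH_range_le.trans_lt ?_, h2.dimH_range_le.trans_lt ?_⟩
      · simp only [Module.finrank_prod, Module.finrank_self, Module.finrank_fin_fun]
        exact_mod_cast (by omega : 1 + k < Module.finrank ℝ V)
      · simp only [Module.finrank_self]
        exact_mod_cast (by omega : 1 < Module.finrank ℝ V))
    exact h3.nonempty
  rw [Set.mem_union, not_or] at hq
  let G : (Fin k → I) → V := fun t => g (fun i => t i)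
  have hGc : Continuous G := hg.continuous.comp (by fun_prop)
  have hq0 : q ≠ 0 := fun h => hq.2 ⟨0, by simp [h]⟩
  have hseg : ∀ (a : ℝ) t, 0 ≤ a → a ≤ 1 → a • F t + (1 - a) • G t ≠ 0 := by
    intro a t ha0 ha1 h
    have h1 : F t = - ((1 - a) • (G t - F t)) := by
      rw [eq_neg_iff_add_eq_zero, ← h, smul_sub, sub_smul, sub_smul, one_smul, one_smul]
      abel
    have h2 := congrArg norm h1
    rw [norm_neg, norm_smul, hF1, Real.norm_of_nonneg (by linarith)] at h2
    have h3 : ‖G t - F t‖ < 1 := hgF t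
    nlinarith [norm_nonneg (G t - F t)]
  have hG0 : ∀ t, G t ≠ 0 := fun t => by simpa using hseg 0 t le_rfl zero_le_one
  have hGq : ∀ t, G t ∉ (ℝ ∙ q) := by
    intro t ht
    obtain ⟨ν, hν⟩ := Submodule.mem_span_singleton.mp ht
    have hν0 : ν ≠ 0 := fun h => hG0 t (by rw [← hν, h, zero_smul])
    exact hq.1 ⟨(ν⁻¹, fun i => t i), by
      show ν⁻¹ • G t = q
      rw [← hν, smul_smul, inv_mul_cancel₀ hν0, one_smul]⟩
  have hxq : (x0 : V) ∉ (ℝ ∙ q) := by
    intro ht
    obtain ⟨ν, hν⟩ := Submodule.mem_span_singleton.mp ht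
    have hν0 : ν ≠ 0 := fun h => by
      rw [← hν, h, zero_smul, norm_zero] at hx1
      exact zero_ne_one hx1
    exact hq.2 ⟨ν⁻¹, by
      show ν⁻¹ • (x0 : V) = q
      rw [← hν, smul_smul, inv_mul_cancel₀ hν0, one_smul]⟩
  have hS : IsCompact {x : I × (Fin k → I) |
      (1 - (x.1 : ℝ)) • G x.2 + (x.1 : ℝ) • (x0 : V) ∈ (ℝ ∙ q)} := by
    apply IsClosed.isCompact
    exact (Submodule.closed_of_finiteDimensional (ℝ ∙ q)).preimage (by fun_prop)
  obtain ⟨a', ha', ha''⟩ := hS.exists_forall_le'
    (f := fun x : I × (Fin k → I) => (x.1 : ℝ) * (1 - x.1) * bump k (fun i => x.2 i))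
    (Continuous.continuousOn (by unfold bump; fun_prop)) (a := 0) (by
      rintro ⟨c, t⟩ hx
      simp only [Set.mem_ofPred_eq] at hx
      have h1 : (0 : ℝ) < c := by
        refine lt_of_le_of_ne c.2.1 (fun h => hGq t ?_)
        rw [← h] at hx
        simpa using hx
      have h2 : (0 : ℝ) < 1 - c := by
        refine lt_of_le_of_ne (by linarith [c.2.2]) (fun h => hxq ?_)
        have h' : (c : ℝ) = 1 := by linarith
        rw [h'] at hx
        simpa using hx
      have h3 : 0 < bump k (fun i => t i) := by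
        refine lt_of_le_of_ne (bump_nonneg k t) (fun h => hxq ?_)
        have h' : G t = x0 := hgb t ((bump_eq_zero k t).mp h.symm)
        rw [h', ← add_smul] at hx
        simpa using hx
      positivity)
  have hqn : 0 < ‖q‖ := norm_pos_iff.mpr hq0
  set M : ℝ := 3 / (a' * ‖q‖) with hM
  have hseg2 : ∀ (c : ℝ) t, 0 ≤ c → c ≤ 1 →
      (1 - c) • G t + c • (x0 : V) + (M * (c * (1 - c) * bump k (fun i => t i))) • q ≠ 0 := by
    intro c t hc0 hc1 h
    have h1 := eq_neg_of_add_eq_zero_left h
    have h2 := ha'' (⟨c, hc0, hc1⟩, t) (by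
      simp only [Set.mem_ofPred_eq]
      rw [h1]
      exact Submodule.neg_mem _ (Submodule.smul_mem _ _ (Submodule.mem_span_singleton_self q)))
    simp only at h2
    have h3 := congrArg norm h1
    have hMpos : 0 < M := by positivity
    rw [norm_neg, norm_smul, Real.norm_of_nonneg (mul_nonneg hMpos.le (ha'.le.trans h2))] at h3
    have h4 : ‖G t‖ ≤ 2 := by
      have h5 : ‖G t - F t‖ < 1 := hgF t
      have h6 := norm_add_le (G t - F t) (F t)
      rw [sub_add_cancel, hF1] at h6
      linarith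
    have h5 := norm_add_le ((1 - c) • G t) (c • (x0 : V))
    rw [norm_smul, norm_smul, hx1, Real.norm_of_nonneg hc0,
      Real.norm_of_nonneg (by linarith)] at h5
    have h6 : M * a' * ‖q‖ = 3 := by rw [hM]; field_simp
    have h7 : M * a' * ‖q‖ ≤ M * (c * (1 - c) * bump k (fun i => t i)) * ‖q‖ := by gcongr
    nlinarith
  let A : I → ℝ := fun s => max (1 - 2 * (s : ℝ)) 0
  let C : I → ℝ := fun s => max (2 * (s : ℝ) - 1) 0
  let H : I × (Fin k → I) → V := fun x => A x.1 • F x.2 + (1 - A x.1 - C x.1) • G x.2 +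
    C x.1 • (x0 : V) + (M * (C x.1 * (1 - C x.1) * bump k (fun i => x.2 i))) • q
  have hHc : Continuous H := by
    simp only [H, A, C, bump]
    fun_prop
  have hH0 : ∀ x, H x ≠ 0 := by
    rintro ⟨s, t⟩
    have hs0 := s.2.1
    have hs1 := s.2.2
    rcases le_total (2 * (s : ℝ)) 1 with h | h
    · have hC : C s = 0 := max_eq_right (by linarith)
      have hA : A s = 1 - 2 * (s : ℝ) := max_eq_left (by linarith)
      have := hseg (A s) t (by linarith) (by linarith)
      simpa [H, hC] using this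
    · have hA : A s = 0 := max_eq_right (by linarith)
      have hC : C s = 2 * (s : ℝ) - 1 := max_eq_left (by linarith)
      have := hseg2 (C s) t (by linarith) (by linarith)
      simpa [H, hA] using this
  refine ⟨⟨⟨⟨fun x => ⟨‖H x‖⁻¹ • H x, ?_⟩, ?_⟩, fun t => ?_, fun t => ?_⟩, fun s t ht => ?_⟩⟩
  · rw [mem_sphere_zero_iff_norm, norm_smul, norm_inv, norm_norm,
      inv_mul_cancel₀ (norm_ne_zero_iff.mpr (hH0 x))]
  · exact Continuous.subtype_mk
      ((hHc.norm.inv₀ (fun x => norm_ne_zero_iff.mpr (hH0 x))).smul hHc) _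
  · apply Subtype.ext
    have : H (0, t) = F t := by simp [H, A, C]
    simp only [this, hF1, inv_one, one_smul]
    rfl
  · apply Subtype.ext
    have : H (1, t) = x0 := by
      have h1 : A 1 = 0 := by simp [A]
      have h2 : C 1 = 1 := by simp only [C, Set.Icc.coe_one]; norm_num
      simp [H, h1, h2]
    simp only [this, hx1, inv_one, one_smul]
    rfl
  · apply Subtype.ext
    have : H (s, t) = x0 := by
      have h' : G t = x0 := hgb t ht
      simp only [H, hFb t ht, h', (bump_eq_zero k t).mpr ht, mul_zero, zero_smul, add_zero,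
        ← add_smul]
      have h1 : A s + (1 - A s - C s) + C s = 1 := by ring
      rw [h1, one_smul]
    show ‖H (s, t)‖⁻¹ • H (s, t) = F t
    rw [this, hx1, inv_one, one_smul, hFb t ht]

/-- Homotopy groups of a space homeomorphic to a sphere vanish below the dimension. -/
theorem subsingleton_pi {A : Type} [TopologicalSpace A] (e : A ≃ₜ Metric.sphere (0 : V) 1)
    (k : ℕ) (hk : k + 1 < Module.finrank ℝ V) (x : A) :
    Subsingleton (HomotopyGroup.Pi k A x) := by
  have key : ∀ f : GenLoop (Fin k) A x, GenLoop.Homotopic f GenLoop.const := by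
    intro f
    let f' : GenLoop (Fin k) (Metric.sphere (0 : V) 1) (e x) :=
      ⟨(e : C(A, _)).comp f.1, fun y hy => by simp [f.2 y hy]⟩
    obtain ⟨H⟩ := sphere_loops k hk (e x) f'
    refine ⟨⟨⟨⟨fun z => e.symm (H z), e.symm.continuous.comp H.continuous⟩, fun t => ?_,
      fun t => ?_⟩, fun s t ht => ?_⟩⟩
    · simp [f']
    · show e.symm (H (1, t)) = x
      rw [H.apply_one]
      exact e.symm_apply_apply x
    · have := H.eq_fst s ht
      simp only [ContinuousMap.coe_mk, this]
      simp [f']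
  constructor
  rintro ⟨a⟩ ⟨b⟩
  exact Quotient.sound ((key a).trans (key b).symm)

end Pool.Agent.P.MP_4d0e60_an
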