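import Mathlib

set_option autoImplicit false

namespace Pool.Agent.P.MP_4d0e60_an

open Finset intervalIntegral

/-- Continuous solution of `s z t = u` for a uniformly increasing family. -/
lemma exists_inverse {Z : Type} [TopologicalSpace Z] (s : Z → ℝ → ℝ)
    (hc : Continuous s.uncurry) (hm : ∀ z t t', t ≤ t' → (t' - t) / 2 ≤ s z t' - s z t) (u : ℝ) :
    ∃ τ : Z → ℝ, Continuous τ ∧ ∀ z, s z (τ z) = u := by
  have hsurj : ∀ z, ∃ t, s z t = u := by
    intro z
    have hcz : Continuous (s z) := hc.uncurry_left z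
    have h1 := hm z 0 (2 * |u - s z 0|) (by positivity)
    have h2 := hm z (-(2 * |u - s z 0|)) 0 (by simp)
    have h3 := le_abs_self (u - s z 0)
    have h4 := neg_abs_le (u - s z 0)
    have := intermediate_value_univ (-(2 * |u - s z 0|)) (2 * |u - s z 0|) hcz
      (show u ∈ Set.Icc _ _ from ⟨by linarith, by linarith⟩)
    exact this
  choose τ hτ using hsurj
  refine ⟨τ, ?_, hτ⟩
  rw [continuous_iff_continuousAt]
  intro z0
  have hb : ∀ z, dist (τ z) (τ z0) ≤ 2 * |s z0 (τ z0) - s z (τ z0)| := by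
    intro z
    rw [Real.dist_eq, hτ z0, ← hτ z]
    rcases le_total (τ z) (τ z0) with h | h
    · have := hm z _ _ h
      rw [abs_of_nonpos (by linarith), abs_of_nonpos (by linarith)]
      linarith
    · have := hm z _ _ h
      rw [abs_of_nonneg (by linarith), abs_of_nonneg (by linarith)]
      linarith
  rw [ContinuousAt, tendsto_iff_dist_tendsto_zero]
  refine squeeze_zero (fun _ => dist_nonneg) hb ?_
  have hc2 : Continuous (fun z => 2 * |s z0 (τ z0) - s z (τ z0)|) := by
    have := hc.uncurry_right (τ z0)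
    fun_prop
  simpa using hc2.tendsto z0

/-- The point of the octahedral sphere with latitude `x` and longitude `π t`. -/
noncomputable def pt (x t : ℝ) : ℂ × ℝ :=
  (((1 - |x| : ℝ) : ℂ) * Complex.exp ((Real.pi * t : ℝ) * Complex.I), x)

lemma pt_neg (x t : ℝ) : pt (-x) t = - pt x (t + 1) := by
  simp only [pt, abs_neg, Prod.neg_mk, Prod.mk.injEq, and_true]
  have : ((Real.pi * (t + 1) : ℝ) : ℂ) * Complex.I =
      ((Real.pi * t : ℝ) : ℂ) * Complex.I + Real.pi * Complex.I := by push_cast; ring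
  rw [this, Complex.exp_add, Complex.exp_pi_mul_I]
  ring

lemma norm_pt (x t : ℝ) (hx : |x| ≤ 1) : ‖pt x t‖ = max (1 - |x|) |x| := by
  simp only [pt, Prod.norm_mk, norm_mul, Complex.norm_exp_ofReal_mul_I, mul_one, Complex.norm_real,
    Real.norm_eq_abs]
  rw [abs_of_nonneg (by linarith)]

lemma pt_lip (x x' t t' : ℝ) (hx : |x| ≤ 1) (h : |x - x'| ≤ |t - t'|) :
    ‖pt x t - pt x' t'‖ ≤ 5 * |t - t'| := by
  simp only [pt, Prod.mk_sub_mk, Prod.norm_mk, Real.norm_eq_abs, max_le_iff]
  have h0 := abs_nonneg (t - t')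
  refine ⟨?_, by linarith⟩
  set E := Complex.exp ((Real.pi * t : ℝ) * Complex.I) with hE
  set E' := Complex.exp ((Real.pi * t' : ℝ) * Complex.I) with hE'
  have h1 : ‖E - E'‖ ≤ 4 * |t - t'| := by
    have : E - E' = E' * (Complex.exp (Complex.I * (Real.pi * (t - t') : ℝ)) - 1) := by
      rw [mul_sub, hE', ← Complex.exp_add, hE]
      push_cast
      congr 1
      · congr 1; ring
      · ring
    rw [this, norm_mul, hE', Complex.norm_exp_ofReal_mul_I, one_mul]
    refine (Real.norm_exp_I_mul_ofReal_sub_one_le).trans ?_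
    rw [Real.norm_eq_abs, abs_mul, abs_of_pos Real.pi_pos]
    have := Real.pi_le_four
    gcongr
  have h2 : ((1 - |x| : ℝ) : ℂ) * E - ((1 - |x'| : ℝ) : ℂ) * E' =
      ((1 - |x| : ℝ) : ℂ) * (E - E') + ((|x'| - |x| : ℝ) : ℂ) * E' := by
    push_cast; ring
  rw [h2]
  refine (norm_add_le _ _).trans ?_
  rw [norm_mul, norm_mul, hE', Complex.norm_exp_ofReal_mul_I, Complex.norm_real, Complex.norm_real,
    Real.norm_eq_abs, Real.norm_eq_abs, ← hE', mul_one]
  have h3 : |(1 - |x|)| ≤ 1 := by
    rw [abs_le]; constructor <;> linarith [abs_nonneg x]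
  have h4 : |(|x'| - |x|)| ≤ |t - t'| := by
    refine (abs_abs_sub_abs_le x' x).trans ?_
    rwa [abs_sub_comm]
  have h5 : |(1 - |x|)| * ‖E - E'‖ ≤ 1 * (4 * |t - t'|) := by gcongr
  linarith

lemma two_point (ξ : ℝ → ℝ) (hb : ∀ t, |ξ t| ≤ 1) (hlip : ∀ t t', |ξ t - ξ t'| ≤ |t - t'|)
    (t t' : ℝ) (htt : t ≤ t') (hint : ∫ s in t..t', (1 - |ξ s|) ≤ 1 / 100) :
    1 / 2 ≤ ‖pt (ξ t) t + pt (ξ t') t'‖ := by
  have hc : Continuous ξ := by
    have : LipschitzWith 1 ξ := LipschitzWith.of_dist_le_mul (fun a b => by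
      simpa [Real.dist_eq] using hlip a b)
    exact this.continuous
  have hcb : Continuous (fun s => 1 - |ξ s|) := by fun_prop
  by_cases hcase : t' - t ≤ 1 / 10
  · have h1 := pt_lip (ξ t) (ξ t') t t' (hb t) (hlip t t')
    rw [abs_of_nonpos (by linarith)] at h1
    have h2 : 1 / 2 ≤ ‖pt (ξ t) t‖ := by
      rw [norm_pt _ _ (hb t), le_max_iff]
      by_cases h : 1 / 2 ≤ |ξ t|
      · exact Or.inr h
      · left; linarith
    have h3 : (2 : ℝ) • pt (ξ t) t =
        (pt (ξ t) t + pt (ξ t') t') + (pt (ξ t) t - pt (ξ t') t') := by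
      rw [two_smul]; abel
    have h4 := norm_add_le (pt (ξ t) t + pt (ξ t') t') (pt (ξ t) t - pt (ξ t') t')
    rw [← h3, norm_smul, Real.norm_ofNat] at h4
    linarith
  · have hwin : ∀ a s, t ≤ a → a + 1 / 20 ≤ t' → s ∈ Set.Icc a (a + 1 / 20) → 3 / 4 ≤ |ξ s| := by
      intro a s ha ha' hs
      have h1 : ∫ s in a..(a + 1 / 20), (1 - |ξ s|) ≤ ∫ s in t..t', (1 - |ξ s|) := by
        apply integral_mono_interval ha (by linarith) ha'
        · exact Filter.Eventually.of_forall (fun s => by have := hb s; simp only [Pi.zero_apply]; linarith)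
        · exact hcb.intervalIntegrable _ _
      have h2 : ∫ _ in a..(a + 1 / 20), (1 - |ξ s| - 1 / 20) ≤
          ∫ s in a..(a + 1 / 20), (1 - |ξ s|) := by
        apply integral_mono_on (by linarith) (continuous_const.intervalIntegrable _ _)
          (hcb.intervalIntegrable _ _)
        intro u hu
        have h3 := hlip u s
        have h4 : |u - s| ≤ 1 / 20 := by
          rw [abs_le]; constructor <;> linarith [hu.1, hu.2, hs.1, hs.2]
        have h5 := abs_sub_abs_le_abs_sub (ξ u) (ξ s)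
        linarith
      rw [integral_const, smul_eq_mul] at h2
      linarith
    have hall : ∀ s ∈ Set.Icc t t', 3 / 4 ≤ |ξ s| := by
      intro s hs
      by_cases h : s + 1 / 20 ≤ t'
      · exact hwin s s hs.1 h ⟨le_rfl, by linarith⟩
      · exact hwin (s - 1 / 20) s (by linarith) (by linarith [hs.2]) ⟨by linarith, by linarith⟩
    have h1 := hall t ⟨le_rfl, htt⟩
    have h2 := hall t' ⟨htt, le_rfl⟩
    have hno : ∀ s ∈ Set.Icc t t', ξ s ≠ 0 := by
      intro s hs h0
      have := hall s hs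
      rw [h0, abs_zero] at this
      linarith
    refine le_trans ?_ (norm_snd_le _)
    simp only [pt, Prod.snd_add, Real.norm_eq_abs]
    rcases le_total 0 (ξ t) with h3 | h3 <;> rcases le_total 0 (ξ t') with h4 | h4
    · rw [abs_of_nonneg h3] at h1
      rw [abs_of_nonneg h4] at h2
      rw [abs_of_nonneg (by linarith)]
      linarith
    · obtain ⟨s, hs, hs0⟩ := intermediate_value_Icc' htt hc.continuousOn ⟨h4, h3⟩
      exact absurd hs0 (hno s hs)
    · obtain ⟨s, hs, hs0⟩ := intermediate_value_Icc htt hc.continuousOn ⟨h3, h4⟩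
      exact absurd hs0 (hno s hs)
    · rw [abs_of_nonpos h3] at h1
      rw [abs_of_nonpos h4] at h2
      rw [abs_of_nonpos (by linarith)]
      linarith

theorem reparam {Z : Type} [TopologicalSpace Z] (T : Z → Z) (p : ℕ) (hp : 0 < p)
    (ξ : Z → ℝ → ℝ) (hcont : Continuous ξ.uncurry) (hb : ∀ z t, |ξ z t| ≤ 1)
    (hlip : ∀ z t t', |ξ z t - ξ z t'| ≤ |t - t'|)
    (hper : ∀ z t, |ξ z (t + p)| = |ξ z t|) (hT : ∀ z t, ξ (T z) t = - ξ z (t + 1))
    (hint : ∀ z, ∫ t in (0 : ℝ)..p, (1 - |ξ z t|) ≤ p / 200) :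
    ∃ G : Z → ℂ × ℝ, Continuous G ∧ (∀ z, ‖G z‖ ≤ 1) ∧ ∀ z, 1 / 2 ≤ ‖G z - G (T z)‖ := by
  have hpR : (0 : ℝ) < p := by exact_mod_cast hp
  let β : Z → ℝ → ℝ := fun z t => 1 - |ξ z t| + 1 / 200
  have hβc : Continuous β.uncurry := by
    have : β.uncurry = fun x => 1 - |ξ.uncurry x| + 1 / 200 := rfl
    rw [this]; fun_prop
  have hβz : ∀ z, Continuous (β z) := fun z => hβc.uncurry_left z
  have hξz : ∀ z, Continuous (ξ z) := fun z => hcont.uncurry_left z
  have hii : ∀ z a b, IntervalIntegrable (β z) MeasureTheory.volume a b :=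
    fun z a b => (hβz z).intervalIntegrable _ _
  let A : Z → ℝ → ℝ := fun z t => ∫ s in (0 : ℝ)..t, β z s
  have hAc : Continuous A.uncurry := continuous_parametric_primitive_of_continuous hβc
  have hAsub : ∀ z t t', A z t' - A z t = ∫ s in t..t', β z s :=
    fun z t t' => integral_interval_sub_left (hii z _ _) (hii z _ _)
  have hβint : ∀ z t t', ∫ s in t..t', β z s = (∫ s in t..t', (1 - |ξ z s|)) + (t' - t) / 200 := by
    intro z t t'
    have hc1 : Continuous (fun s => 1 - |ξ z s|) := by have := hξz z; fun_prop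
    simp only [β]
    rw [integral_add (hc1.intervalIntegrable _ _) (continuous_const.intervalIntegrable _ _),
      integral_const, smul_eq_mul]
    ring
  have hAlow : ∀ z t t', t ≤ t' → (t' - t) / 200 ≤ A z t' - A z t := by
    intro z t t' h
    rw [hAsub, hβint]
    have : 0 ≤ ∫ s in t..t', (1 - |ξ z s|) :=
      integral_nonneg h (fun s _ => by have := hb z s; linarith)
    linarith
  have hA0 : ∀ z, A z 0 = 0 := fun z => by simp [A]
  have hLpos : ∀ z, 0 < A z p := by
    intro z
    have := hAlow z 0 p hpR.le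
    rw [hA0] at this
    linarith
  have hLup : ∀ z, A z p ≤ p / 100 := by
    intro z
    have h1 := hAsub z 0 p
    rw [hA0, hβint] at h1
    have := hint z
    linarith
  have hAper : ∀ z t, A z (t + p) = A z t + A z p := by
    intro z t
    have hpβ : Function.Periodic (β z) p := fun t => by simp only [β, hper]
    have h1 := hpβ.intervalIntegral_add_eq t 0
    rw [zero_add, ← hAsub, ← hAsub, hA0] at h1
    linarith
  have hAT : ∀ z t, A (T z) t = A z (t + 1) - A z 1 := by
    intro z t
    have h1 : ∀ s, β (T z) s = β z (s + 1) := fun s => by simp only [β, hT, abs_neg]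
    rw [hAsub]
    simp only [A, h1]
    rw [integral_comp_add_right (β z) 1, zero_add]
  have hLT : ∀ z, A (T z) p = A z p := by
    intro z
    rw [hAT, add_comm, hAper]; ring
  let s0 : Z → ℝ → ℝ := fun z t => p / A z p * A z t
  let c : Z → ℝ := fun z => (∑ i ∈ range p, (s0 z i - i)) / p
  let s : Z → ℝ → ℝ := fun z t => s0 z t - c z
  have hs0c : Continuous s0.uncurry := by
    have h1 : Continuous (fun x : Z × ℝ => A x.1 p) := (hAc.uncurry_right (p : ℝ)).comp continuous_fst
    exact (continuous_const.div h1 (fun x => (hLpos x.1).ne')).mul hAc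
  have hcc : Continuous c := by
    refine Continuous.div_const (continuous_finsetSum _ (fun i _ => ?_)) _
    exact (hs0c.uncurry_right (i : ℝ)).sub continuous_const
  have hsc : Continuous s.uncurry := hs0c.sub (hcc.comp continuous_fst)
  have hκ : ∀ z, 100 ≤ p / A z p := by
    intro z
    rw [le_div_iff₀ (hLpos z)]
    have := hLup z
    linarith
  have hsm : ∀ z t t', t ≤ t' → (t' - t) / 2 ≤ s z t' - s z t := by
    intro z t t' h
    have h1 := hAlow z t t' h
    have h2 := hκ z
    have h3 : s z t' - s z t = p / A z p * (A z t' - A z t) := by simp only [s, s0]; ring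
    rw [h3]
    nlinarith
  have hs0T : ∀ z t, s0 (T z) t = s0 z (t + 1) - s0 z 1 := by
    intro z t
    simp only [s0]
    rw [hLT, hAT]; ring
  have hcT : ∀ z, c (T z) = c z + 1 - s0 z 1 := by
    intro z
    have h1 : ∑ i ∈ range p, (s0 z ((i + 1 : ℕ) : ℝ) - ((i + 1 : ℕ) : ℝ)) =
        ∑ i ∈ range p, (s0 z i - i) := by
      have h2 := sum_range_succ (fun i : ℕ => s0 z i - i) p
      have h3 := sum_range_succ' (fun i : ℕ => s0 z i - i) p
      have h4 : s0 z p = p := by
        simp only [s0]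
        exact div_mul_cancel₀ _ (hLpos z).ne'
      have h5 : s0 z 0 = 0 := by simp only [s0, hA0, mul_zero]
      simp only [Nat.cast_zero, h4, h5, sub_self, add_zero] at h2 h3
      rw [← h3, h2]
    have h6 : ∑ i ∈ range p, (s0 (T z) i - i) =
        ∑ i ∈ range p, (s0 z i - i) + p * (1 - s0 z 1) := by
      rw [← h1]
      have : (p : ℝ) * (1 - s0 z 1) = ∑ _i ∈ range p, (1 - s0 z 1) := by
        rw [sum_const, card_range, nsmul_eq_mul]
      rw [this, ← sum_add_distrib]
      refine sum_congr rfl (fun i _ => ?_)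
      rw [hs0T]
      push_cast
      ring
    simp only [c]
    rw [h6]
    field_simp
    ring
  have hsT : ∀ z t, s (T z) t = s z (t + 1) - 1 := by
    intro z t
    simp only [s]
    rw [hs0T, hcT]; ring
  obtain ⟨τ, hτc, hτ⟩ := exists_inverse s hsc hsm 0
  refine ⟨fun z => pt (ξ z (τ z)) (τ z), ?_, fun z => ?_, fun z => ?_⟩
  · have h1 : Continuous (fun z => ξ z (τ z)) := hcont.comp (continuous_id.prodMk hτc)
    unfold pt
    fun_prop
  · rw [norm_pt _ _ (hb _ _), max_le_iff]
    exact ⟨by linarith [abs_nonneg (ξ z (τ z))], hb _ _⟩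
  · simp only
    rw [hT, pt_neg, sub_neg_eq_add]
    have h1 : s z (τ (T z) + 1) = 1 := by
      have := hsT z (τ (T z))
      rw [hτ] at this
      linarith
    have hle : τ z ≤ τ (T z) + 1 := by
      by_contra hcon
      have := hsm z _ _ (not_le.mp hcon).le
      rw [h1, hτ] at this
      linarith [not_le.mp hcon]
    apply two_point (ξ z) (hb z) (hlip z) _ _ hle
    have h3 : s z (τ (T z) + 1) - s z (τ z) = p / A z p * (A z (τ (T z) + 1) - A z (τ z)) := by
      simp only [s, s0]; ring
    rw [h1, hτ, hAsub, hβint] at h3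
    have h4 := hκ z
    by_contra hcon
    have h5 := not_le.mp hcon
    have h6 : 1 / 100 < (∫ s in τ z..(τ (T z) + 1), (1 - |ξ z s|)) + (τ (T z) + 1 - τ z) / 200 := by
      linarith
    nlinarith

end Pool.Agent.P.MP_4d0e60_an
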