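import Mathlib
import Pool.Agent.P.MP_4d0e60_an.Reparam

set_option autoImplicit false

namespace Pool.Agent.P.MP_4d0e60_an

open Finset InnerProductGeometry

/-! ### Painting -/

noncomputable def stp (x s : ℝ) : ℝ := max (-1) (min 1 (max (s - 1) (min x (s + 1))))

lemma stp_neg (x s : ℝ) : stp (-x) (-s) = - stp x s := by
  simp only [stp, max_def, min_def]
  split_ifs <;> linarith

lemma stp_abs (x s : ℝ) : |stp x s| ≤ 1 := by
  rw [abs_le]
  simp only [stp, max_def, min_def]
  split_ifs <;> constructor <;> linarith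

lemma stp_lip (x s x' s' d : ℝ) (h1 : |x - x'| ≤ d) (h2 : |s - s'| ≤ d) :
    |stp x s - stp x' s'| ≤ d := by
  have h0 : 0 ≤ d := (abs_nonneg _).trans h1
  unfold stp
  refine (abs_max_sub_max_le_max _ _ _ _).trans (max_le (by simpa using h0) ?_)
  refine (abs_min_sub_min_le_max _ _ _ _).trans (max_le (by simpa using h0) ?_)
  refine (abs_max_sub_max_le_max _ _ _ _).trans (max_le (by simpa using h2) ?_)
  exact (abs_min_sub_min_le_max _ _ _ _).trans (max_le h1 (by simpa using h2))

lemma stp_zero (x : ℝ) (hx : |x| ≤ 1) : stp x 0 = x := by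
  rw [abs_le] at hx
  simp only [stp, max_def, min_def]
  split_ifs <;> linarith [hx.1, hx.2]

lemma stp_big (x s : ℝ) (hs : 2 ≤ |s|) : |stp x s| = 1 := by
  rcases le_abs.mp hs with h | h
  · have : stp x s = 1 := by
      simp only [stp, max_def, min_def]
      split_ifs <;> linarith
    simp [this]
  · have : stp x s = -1 := by
      simp only [stp, max_def, min_def]
      split_ifs <;> linarith
    simp [this]

noncomputable def paint (f : ℕ → ℝ) : ℕ → ℝ
  | 0 => 0
  | k + 1 => stp (paint f k) (f k)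

lemma paint_neg (f : ℕ → ℝ) (k : ℕ) : paint (fun j => - f j) k = - paint f k := by
  induction k with
  | zero => simp [paint]
  | succ k ih => simp only [paint, ih, stp_neg]

lemma paint_abs (f : ℕ → ℝ) (k : ℕ) : |paint f k| ≤ 1 := by
  cases k with
  | zero => simp [paint]
  | succ k => exact stp_abs _ _

lemma paint_lip (f g : ℕ → ℝ) (d : ℝ) (h : ∀ j, |f j - g j| ≤ d) (k : ℕ) :
    |paint f k - paint g k| ≤ d := by
  induction k with
  | zero => simpa [paint] using (abs_nonneg _).trans (h 0)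
  | succ k ih => exact stp_lip _ _ _ _ _ ih (h k)

lemma paint_cont {Z : Type} [TopologicalSpace Z] (f : Z → ℕ → ℝ)
    (h : ∀ j, Continuous (fun z => f z j)) (k : ℕ) : Continuous (fun z => paint (f z) k) := by
  induction k with
  | zero => simpa [paint] using continuous_const
  | succ k ih =>
    have := h k
    simp only [paint, stp]
    fun_prop

lemma paint_full (f : ℕ → ℝ) (k : ℕ) (h : ∀ j < k, f j = 0 ∨ 2 ≤ |f j|) (h2 : ∃ j < k, f j ≠ 0) :
    |paint f k| = 1 := by
  induction k with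
  | zero => simp at h2
  | succ k ih =>
    rcases h k (by omega) with h0 | h0
    · simp only [paint, h0]
      rw [stp_zero _ (paint_abs _ _)]
      refine ih (fun j hj => h j (by omega)) ?_
      obtain ⟨j, hj, hj2⟩ := h2
      refine ⟨j, ?_, hj2⟩
      rcases Nat.lt_succ_iff_lt_or_eq.mp hj with h | h
      · exact h
      · exact absurd (h ▸ h0) hj2
    · exact stp_big _ _ h0

/-! ### The angle -/

lemma ang_eq (x : ℝ) : ∃ k : ℤ, angle (Complex.exp (x * Complex.I)) 1 = |x - 2 * Real.pi * k| := by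
  refine ⟨toIocDiv Real.two_pi_pos (-Real.pi) x, ?_⟩
  rw [Complex.angle_exp_one]
  congr 1
  have := self_sub_toIocMod Real.two_pi_pos (-Real.pi) x
  rw [zsmul_eq_mul] at this
  linarith

lemma ang_le (x : ℝ) (k : ℤ) : angle (Complex.exp (x * Complex.I)) 1 ≤ |x - 2 * Real.pi * k| := by
  obtain ⟨k', hk'⟩ := ang_eq x
  have h1 := angle_le_pi (Complex.exp (x * Complex.I)) (1 : ℂ)
  by_cases h : k = k'
  · rw [hk', h]
  · have h2 : (1 : ℝ) ≤ |(k' : ℝ) - k| := by
      have : (1 : ℤ) ≤ |k' - k| := Int.one_le_abs (sub_ne_zero.mpr (Ne.symm h))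
      exact_mod_cast this
    have h3 : |2 * Real.pi * ((k' : ℝ) - k)| ≤ |x - 2 * Real.pi * k| + |x - 2 * Real.pi * k'| := by
      have : 2 * Real.pi * ((k' : ℝ) - k) = (x - 2 * Real.pi * k) - (x - 2 * Real.pi * k') := by ring
      rw [this]
      exact abs_sub _ _
    rw [abs_mul, abs_of_pos Real.two_pi_pos] at h3
    have := Real.pi_pos
    nlinarith

lemma ang_lip (x y : ℝ) : |angle (Complex.exp (x * Complex.I)) 1 -
    angle (Complex.exp (y * Complex.I)) 1| ≤ |x - y| := by
  have key : ∀ x y : ℝ, angle (Complex.exp (x * Complex.I)) 1 -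
      angle (Complex.exp (y * Complex.I)) 1 ≤ |x - y| := by
    intro x y
    obtain ⟨k, hk⟩ := ang_eq y
    have h1 := ang_le x k
    have h2 : |x - 2 * Real.pi * k| ≤ |x - y| + |y - 2 * Real.pi * k| := abs_sub_le _ _ _
    linarith
  rw [abs_le]
  have h1 := key x y
  have h2 := key y x
  rw [abs_sub_comm] at h2
  constructor <;> linarith

noncomputable def fl (p : ℕ) (t : ℝ) : ℂ := Complex.exp ((-(Real.pi * t / p) : ℝ) * Complex.I)

noncomputable def lat (p : ℕ) (w : ℂ) : ℝ := p / Real.pi * (Real.pi / 2 - angle w 1)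

noncomputable def sig (p : ℕ) (w : ℂ) : ℝ :=
  max (lat p w - p / 2 * (1 - ‖w‖)) 0 - max (- lat p w - p / 2 * (1 - ‖w‖)) 0

lemma norm_fl (p : ℕ) (t : ℝ) : ‖fl p t‖ = 1 := Complex.norm_exp_ofReal_mul_I _

lemma fl_add (p : ℕ) (t t' : ℝ) : fl p (t + t') = fl p t * fl p t' := by
  simp only [fl, ← Complex.exp_add]
  congr 1
  push_cast
  ring

lemma fl_p (p : ℕ) (hp : 0 < p) : fl p p = -1 := by
  have : (p : ℝ) ≠ 0 := by exact_mod_cast hp.ne'
  simp only [fl]
  rw [mul_div_assoc, div_self this, mul_one]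
  push_cast
  rw [neg_mul, Complex.exp_neg, Complex.exp_pi_mul_I]
  norm_num

lemma lat_abs (p : ℕ) (w : ℂ) : |lat p w| ≤ p / 2 := by
  have h1 := angle_le_pi w (1 : ℂ)
  have h2 := angle_nonneg w (1 : ℂ)
  have h3 := Real.pi_pos
  have h4 : |Real.pi / 2 - angle w 1| ≤ Real.pi / 2 := by
    rw [abs_le]; constructor <;> linarith
  rw [lat, abs_mul, abs_of_nonneg (by positivity)]
  calc _ ≤ p / Real.pi * (Real.pi / 2) := by gcongr
    _ = _ := by field_simp

lemma lat_neg (p : ℕ) (w : ℂ) : lat p (-w) = - lat p w := by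
  simp only [lat, angle_neg_left]; ring

lemma sig_neg (p : ℕ) (w : ℂ) : sig p (-w) = - sig p w := by
  simp only [sig, lat_neg, norm_neg, neg_neg]; ring

lemma sig_abs (p : ℕ) (w : ℂ) : |sig p w| ≤ p / 2 * ‖w‖ := by
  have h1 := abs_le.mp (lat_abs p w)
  have h2 : 0 ≤ (p : ℝ) / 2 * ‖w‖ := by positivity
  rw [abs_le]
  simp only [sig, max_def]
  split_ifs <;> constructor <;> nlinarith [h1.1, h1.2]

lemma sig_zero (p : ℕ) : sig p 0 = 0 := by
  have := sig_abs p 0
  simpa using this

lemma sig_cont (p : ℕ) : Continuous (sig p) := by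
  rw [continuous_iff_continuousAt]
  intro w
  by_cases hw : w = 0
  · subst hw
    rw [ContinuousAt, sig_zero, tendsto_zero_iff_abs_tendsto_zero]
    refine squeeze_zero (fun _ => abs_nonneg _) (sig_abs p) ?_
    have : Continuous (fun w : ℂ => (p : ℝ) / 2 * ‖w‖) := by fun_prop
    simpa using this.tendsto 0
  · have h1 : ContinuousAt (fun w : ℂ => angle w (1 : ℂ)) w :=
      (continuousAt_angle (x := (w, (1 : ℂ))) hw one_ne_zero).comp_of_eq
        (f := fun w : ℂ => (w, (1 : ℂ))) (by fun_prop) rfl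
    have h2 : ContinuousAt (lat p) w := by unfold lat; fun_prop
    unfold sig
    fun_prop

lemma angle_fl (p : ℕ) (w : ℂ) (hw : w ≠ 0) (t : ℝ) :
    angle (w * fl p t) 1 =
      angle (Complex.exp ((w.arg - Real.pi * t / p : ℝ) * Complex.I)) 1 := by
  have : w * fl p t = ‖w‖ • Complex.exp ((w.arg - Real.pi * t / p : ℝ) * Complex.I) := by
    conv_lhs => rw [← Complex.norm_mul_exp_arg_mul_I w]
    rw [fl, mul_assoc, ← Complex.exp_add, Complex.real_smul]
    congr 2
    push_cast
    ring
  rw [this, angle_smul_left_of_pos _ _ (norm_pos_iff.mpr hw)]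

lemma sig_lip (p : ℕ) (hp : 0 < p) (w : ℂ) (hw1 : ‖w‖ ≤ 1) (t t' : ℝ) :
    |sig p (w * fl p t) - sig p (w * fl p t')| ≤ |t - t'| := by
  by_cases hw : w = 0
  · simp [hw]
  have hpR : (0 : ℝ) < p := by exact_mod_cast hp
  have hπ := Real.pi_pos
  have h1 : |lat p (w * fl p t) - lat p (w * fl p t')| ≤ |t - t'| := by
    have h2 := ang_lip (w.arg - Real.pi * t / p) (w.arg - Real.pi * t' / p)
    rw [← angle_fl p w hw, ← angle_fl p w hw] at h2
    have h3 : lat p (w * fl p t) - lat p (w * fl p t') =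
        - (p / Real.pi) * (angle (w * fl p t) 1 - angle (w * fl p t') 1) := by
      simp only [lat]; ring
    have h4 : w.arg - Real.pi * t / p - (w.arg - Real.pi * t' / p) = -(Real.pi / p) * (t - t') := by
      ring
    rw [h4, abs_mul, abs_neg, abs_of_pos (a := Real.pi / p) (by positivity)] at h2
    rw [h3, abs_mul, abs_neg, abs_of_pos (a := p / Real.pi) (by positivity)]
    calc _ ≤ p / Real.pi * (Real.pi / p * |t - t'|) := by gcongr
      _ = _ := by field_simp
  have hc : 0 ≤ (p : ℝ) / 2 * (1 - ‖w‖) := by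
    have : 0 ≤ 1 - ‖w‖ := by linarith
    positivity
  simp only [sig, norm_mul, norm_fl, mul_one]
  generalize lat p (w * fl p t) = x at h1 ⊢
  generalize lat p (w * fl p t') = x' at h1 ⊢
  generalize (p : ℝ) / 2 * (1 - ‖w‖) = c at hc ⊢
  generalize |t - t'| = d at h1 ⊢
  rw [abs_le] at h1 ⊢
  simp only [max_def]
  split_ifs <;> constructor <;> linarith [h1.1, h1.2]

/-- The times at which the coordinate `w` is in transition. -/
def Bad (p : ℕ) (w : ℂ) (t : ℝ) : Prop :=
  w ≠ 0 ∧ p / 2 * (1 - ‖w‖) ≤ |lat p (w * fl p t)| ∧ |lat p (w * fl p t)| ≤ p / 2 * (1 - ‖w‖) + 2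

lemma not_bad (p : ℕ) (w : ℂ) (hw1 : ‖w‖ ≤ 1) (t : ℝ) (h : ¬ Bad p w t) :
    (sig p (w * fl p t) = 0 ∨ 2 ≤ |sig p (w * fl p t)|) ∧ (‖w‖ = 1 → sig p (w * fl p t) ≠ 0) := by
  by_cases hw : w = 0
  · simp [hw, sig_zero]
  have hc : 0 ≤ (p : ℝ) / 2 * (1 - ‖w‖) := by
    have : 0 ≤ 1 - ‖w‖ := by linarith
    positivity
  have hc2 : ‖w‖ = 1 → (p : ℝ) / 2 * (1 - ‖w‖) = 0 := fun h => by simp [h]
  simp only [Bad, ne_eq, hw, not_false_eq_true, true_and, not_and_or, not_le] at h
  simp only [sig, norm_mul, norm_fl, mul_one]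
  generalize lat p (w * fl p t) = x at h ⊢
  generalize (p : ℝ) / 2 * (1 - ‖w‖) = c at hc hc2 h ⊢
  rcases h with h | h
  · rw [abs_lt] at h
    rw [max_eq_right (by linarith [h.2]), max_eq_right (by linarith [h.1])]
    refine ⟨Or.inl (by simp), fun h1 => ?_⟩
    have := hc2 h1
    linarith [h.1, h.2]
  · have : 2 < |max (x - c) 0 - max (-x - c) 0| := by
      rcases lt_abs.mp h with h | h
      · rw [max_eq_left (by linarith), max_eq_right (by linarith), sub_zero,
          abs_of_pos (by linarith)]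
        linarith
      · rw [max_eq_right (by linarith), max_eq_left (by linarith), zero_sub, abs_neg,
          abs_of_pos (by linarith)]
        linarith
    refine ⟨Or.inr this.le, fun _ h0 => ?_⟩
    rw [h0, abs_zero] at this
    linarith

lemma bad_cover (p : ℕ) (hp : 0 < p) (w : ℂ) :
    ∃ d : Fin 3 × Fin 4 → ℝ, ∀ t ∈ Set.Icc (0 : ℝ) p, Bad p w t →
      ∃ i, t ∈ Set.Icc (d i) (d i + 2) := by
  have hpR : (0 : ℝ) < p := by exact_mod_cast hp
  have hπ := Real.pi_pos
  set c := (p : ℝ) / 2 * (1 - ‖w‖) with hc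
  set a := p / Real.pi * w.arg with ha
  refine ⟨fun i => a - 2 * p * (((i.1 : ℕ) : ℝ) - 1) +
    ![p / 2 - c - 2, p / 2 + c, -(p / 2 - c), -(p / 2 + c + 2)] i.2, ?_⟩
  rintro t ht ⟨hw, h1, h2⟩
  obtain ⟨k, hk⟩ := ang_eq (w.arg - Real.pi * t / p)
  rw [← angle_fl p w hw] at hk
  have hE : p / Real.pi * angle (w * fl p t) 1 = |t - (a - 2 * p * k)| := by
    rw [hk, ← abs_of_pos (a := p / Real.pi) (by positivity), ← abs_mul, abs_sub_comm]
    congr 1
    rw [ha]
    field_simp
    ring
  have hlat : lat p (w * fl p t) = p / 2 - |t - (a - 2 * p * k)| := by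
    rw [← hE, lat]
    field_simp
  have hEle : |t - (a - 2 * p * k)| ≤ p := by
    rw [← hE]
    have := angle_le_pi (w * fl p t) (1 : ℂ)
    calc _ ≤ p / Real.pi * Real.pi := by gcongr
      _ = _ := by field_simp
  have ha1 : |a| ≤ p := by
    rw [ha, abs_mul, abs_of_pos (by positivity)]
    have := Complex.abs_arg_le_pi w
    calc _ ≤ p / Real.pi * Real.pi := by gcongr
      _ = _ := by field_simp
  have hk1 : (k : ℝ) < 2 := by
    have := (abs_le.mp hEle).2
    have := (abs_le.mp ha1).2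
    have := ht.1
    nlinarith
  have hk2 : (-2 : ℝ) < k := by
    have := (abs_le.mp hEle).1
    have := (abs_le.mp ha1).1
    have := ht.2
    nlinarith
  have hk1' : k < 2 := by exact_mod_cast hk1
  have hk2' : -2 < k := by exact_mod_cast hk2
  obtain ⟨i, hi⟩ : ∃ i : Fin 3, ((i : ℕ) : ℝ) - 1 = k := by
    interval_cases k
    · exact ⟨0, by norm_num⟩
    · exact ⟨1, by norm_num⟩
    · exact ⟨2, by norm_num⟩
  rw [hlat, ← hc] at h1 h2
  have key : ∃ i2 : Fin 4, t ∈ Set.Icc (a - 2 * p * k +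
      ![p / 2 - c - 2, p / 2 + c, -(p / 2 - c), -(p / 2 + c + 2)] i2) (a - 2 * p * k +
      ![p / 2 - c - 2, p / 2 + c, -(p / 2 - c), -(p / 2 + c + 2)] i2 + 2) := by
    rcases abs_cases (t - (a - 2 * p * k)) with ⟨h3, _⟩ | ⟨h3, _⟩ <;> rw [h3] at h1 h2
    · rcases abs_cases (p / 2 - (t - (a - 2 * p * k))) with ⟨h4, _⟩ | ⟨h4, _⟩ <;>
        rw [h4] at h1 h2
      · exact ⟨0, by simp only [Matrix.cons_val_zero]; constructor <;> linarith⟩
      · exact ⟨1, by simp only [Matrix.cons_val_one, Matrix.cons_val_zero]; constructor <;> linarith⟩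
    · rcases abs_cases (p / 2 - -(t - (a - 2 * p * k))) with ⟨h4, _⟩ | ⟨h4, _⟩ <;>
        rw [h4] at h1 h2
      · exact ⟨2, by simp only [Matrix.cons_val]; constructor <;> linarith⟩
      · exact ⟨3, by simp only [Matrix.cons_val]; constructor <;> linarith⟩
  obtain ⟨i2, hi2⟩ := key
  exact ⟨(i, i2), by simp only [hi]; exact hi2⟩

lemma integral_le_of_cover {I : Type} [Fintype I] (f : ℝ → ℝ) (hf : Continuous f)
    (h1 : ∀ t, f t ≤ 1) (b : ℝ) (hb : 0 ≤ b) (d : I → ℝ)
    (h : ∀ t ∈ Set.Icc 0 b, f t ≠ 0 → ∃ i, t ∈ Set.Icc (d i) (d i + 2)) :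
    ∫ t in (0 : ℝ)..b, f t ≤ 2 * Fintype.card I := by
  have hi : ∀ i, IntervalIntegrable ((Set.Icc (d i) (d i + 2)).indicator (fun _ => (1 : ℝ)))
      MeasureTheory.volume 0 b := by
    intro i
    apply MeasureTheory.Integrable.intervalIntegrable
    rw [MeasureTheory.integrable_indicator_iff measurableSet_Icc]
    exact continuous_const.integrableOn_Icc
  have h2 : ∫ t in (0 : ℝ)..b, f t ≤
      ∫ t in (0 : ℝ)..b, ∑ i, (Set.Icc (d i) (d i + 2)).indicator (fun _ => (1 : ℝ)) t := by
    apply intervalIntegral.integral_mono_on hb (hf.intervalIntegrable _ _)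
    · have := IntervalIntegrable.sum (univ : Finset I) (fun i _ => hi i)
      have e : (fun t => ∑ i, (Set.Icc (d i) (d i + 2)).indicator (fun _ => (1 : ℝ)) t) =
          ∑ i, (Set.Icc (d i) (d i + 2)).indicator (fun _ => (1 : ℝ)) := by
        funext t
        simp
      rw [e]
      exact this
    · intro t ht
      have hnn : ∀ i ∈ (univ : Finset I),
          0 ≤ (Set.Icc (d i) (d i + 2)).indicator (fun _ => (1 : ℝ)) t :=
        fun i _ => Set.indicator_nonneg (fun _ _ => zero_le_one) t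
      by_cases h0 : f t = 0
      · rw [h0]; exact sum_nonneg hnn
      · obtain ⟨i, hi⟩ := h t ht h0
        refine (h1 t).trans (le_trans ?_ (single_le_sum hnn (mem_univ i)))
        rw [Set.indicator_of_mem hi]
  refine h2.trans ?_
  rw [intervalIntegral.integral_finsetSum (fun i _ => hi i)]
  have h3 : ∀ i ∈ (univ : Finset I),
      ∫ t in (0 : ℝ)..b, (Set.Icc (d i) (d i + 2)).indicator (fun _ => (1 : ℝ)) t ≤ 2 := by
    intro i _
    rw [intervalIntegral.integral_of_le hb, MeasureTheory.integral_indicator measurableSet_Icc,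
      MeasureTheory.setIntegral_const, smul_eq_mul, mul_one]
    have h4 : (MeasureTheory.volume.restrict (Set.Ioc 0 b)).real (Set.Icc (d i) (d i + 2)) ≤
        MeasureTheory.volume.real (Set.Icc (d i) (d i + 2)) := by
      apply ENNReal.toReal_mono (by simp)
      exact MeasureTheory.Measure.restrict_apply_le _ _
    simpa using h4
  refine (sum_le_sum h3).trans ?_
  rw [sum_const, card_univ, nsmul_eq_mul, mul_comm]

/-- The uniform colouring of a sphere of dimension linear in `p`. -/
theorem exists_colouring (p m : ℕ) (hp : 0 < p) (hm : 4800 * m ≤ p) :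
    ∃ G : Metric.sphere (0 : Fin m → ℂ) 1 → ℂ × ℝ, Continuous G ∧ (∀ z, ‖G z‖ ≤ 1) ∧
      ∀ z z' : Metric.sphere (0 : Fin m → ℂ) 1, (z' : Fin m → ℂ) = (- fl p 1) • (z : Fin m → ℂ) →
        1 / 2 ≤ ‖G z - G z'‖ := by
  let T : Metric.sphere (0 : Fin m → ℂ) 1 → Metric.sphere (0 : Fin m → ℂ) 1 := fun z =>
    ⟨(- fl p 1) • (z : Fin m → ℂ), by
      rw [mem_sphere_zero_iff_norm, norm_smul, norm_neg, norm_fl, one_mul, norm_eq_of_mem_sphere]⟩
  let f : Metric.sphere (0 : Fin m → ℂ) 1 → ℝ → ℕ → ℝ := fun z t j =>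
    if h : j < m then sig p ((z : Fin m → ℂ) ⟨j, h⟩ * fl p t) else 0
  have hz1 : ∀ (z : Metric.sphere (0 : Fin m → ℂ) 1) j, ‖(z : Fin m → ℂ) j‖ ≤ 1 := fun z j =>
    (norm_le_pi_norm (z : Fin m → ℂ) j).trans (norm_eq_of_mem_sphere z).le
  have hcont : Continuous (Function.uncurry (fun z t => paint (f z t) m)) := by
    refine paint_cont (fun x : Metric.sphere (0 : Fin m → ℂ) 1 × ℝ => f x.1 x.2) (fun j => ?_) m
    simp only [f]
    split_ifs with h
    · refine (sig_cont p).comp (Continuous.mul ?_ ?_)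
      · exact (continuous_apply _).comp (continuous_subtype_val.comp continuous_fst)
      · unfold fl
        fun_prop
    · exact continuous_const
  have key := reparam T p hp (fun z t => paint (f z t) m) hcont
    (fun z t => paint_abs _ _) ?_ ?_ ?_ ?_
  · obtain ⟨G, hG1, hG2, hG3⟩ := key
    refine ⟨G, hG1, hG2, fun z z' h => ?_⟩
    have : z' = T z := Subtype.ext h
    rw [this]
    exact hG3 z
  · intro z t t'
    refine paint_lip _ _ _ (fun j => ?_) m
    simp only [f]
    split_ifs with h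
    · exact sig_lip p hp _ (hz1 z _) t t'
    · simp
  · intro z t
    have : f z (t + p) = fun j => - f z t j := by
      funext j
      simp only [f]
      split_ifs with h
      · rw [fl_add, fl_p p hp, ← sig_neg]
        congr 1; ring
      · simp
    simp only [this, paint_neg, abs_neg]
  · intro z t
    have : f (T z) t = fun j => - f z (t + 1) j := by
      funext j
      simp only [f, T]
      split_ifs with h
      · rw [fl_add, ← sig_neg]
        congr 1
        simp only [Pi.smul_apply, smul_eq_mul]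
        ring
      · simp
    simp only [this, paint_neg]
  · intro z
    choose d hd using fun j : Fin m => bad_cover p hp ((z : Fin m → ℂ) j)
    have hc1 : Continuous (fun t => paint (f z t) m) := hcont.uncurry_left z
    have := integral_le_of_cover (I := Fin m × (Fin 3 × Fin 4)) (fun t => 1 - |paint (f z t) m|)
      (by fun_prop) (fun t => by linarith [abs_nonneg (paint (f z t) m)]) p (by positivity)
      (fun i => d i.1 i.2) (by
        intro t ht hne
        by_contra hcon
        have hnb : ∀ j : Fin m, ¬ Bad p ((z : Fin m → ℂ) j) t := by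
          intro j hj
          obtain ⟨i, hi⟩ := hd j t ht hj
          exact hcon ⟨(j, i), hi⟩
        apply hne
        rw [paint_full (f z t) m, sub_self]
        · intro j hj
          simp only [f, dif_pos hj]
          exact (not_bad p _ (hz1 z _) t (hnb _)).1
        · have : ∃ j, ‖(z : Fin m → ℂ) j‖ = 1 := by
            by_contra h
            push Not at h
            have h2 : ‖(z : Fin m → ℂ)‖ < 1 :=
              (pi_norm_lt_iff zero_lt_one).mpr (fun j => lt_of_le_of_ne (hz1 z j) (h j))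
            rw [norm_eq_of_mem_sphere] at h2
            exact lt_irrefl _ h2
          obtain ⟨j, hj⟩ := this
          refine ⟨j, j.2, ?_⟩
          simp only [f, dif_pos j.2]
          exact (not_bad p _ (hz1 z _) t (hnb _)).2 hj)
    refine this.trans ?_
    simp only [Fintype.card_prod, Fintype.card_fin]
    have : (4800 : ℝ) * m ≤ p := by exact_mod_cast hm
    push_cast
    linarith

end Pool.Agent.P.MP_4d0e60_an
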