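import Mathlib
import Pool.Agent.P.MP_4d0e60_an.Paint

set_option autoImplicit false

namespace Pool.Agent.P.MP_4d0e60_an

/-- The sphere used for the prime `p`. -/
abbrev Sph (p : ℕ) : Type := Metric.sphere (0 : Fin (p / 4800) → ℂ) 1

noncomputable def om (p : ℕ) : ℂ := Complex.exp (2 * Real.pi * Complex.I / p)

lemma norm_om (p : ℕ) : ‖om p‖ = 1 := by
  have : om p = Complex.exp ((2 * Real.pi / p : ℝ) * Complex.I) := by
    unfold om
    congr 1
    push_cast
    ring
  rw [this, Complex.norm_exp_ofReal_mul_I]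

lemma om_ne (p : ℕ) : om p ≠ 0 := Complex.exp_ne_zero _

lemma om_prim {p : ℕ} (hp : p ≠ 0) : IsPrimitiveRoot (om p) p := Complex.isPrimitiveRoot_exp p hp

lemma exists_norm_one {m : ℕ} (z : Metric.sphere (0 : Fin m → ℂ) 1) :
    (∀ j, ‖(z : Fin m → ℂ) j‖ ≤ 1) ∧ ∃ j, ‖(z : Fin m → ℂ) j‖ = 1 := by
  have hz1 : ∀ j, ‖(z : Fin m → ℂ) j‖ ≤ 1 := fun j =>
    (norm_le_pi_norm (z : Fin m → ℂ) j).trans (norm_eq_of_mem_sphere z).le
  refine ⟨hz1, ?_⟩
  by_contra h
  push Not at h
  have h2 : ‖(z : Fin m → ℂ)‖ < 1 :=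
    (pi_norm_lt_iff zero_lt_one).mpr (fun j => lt_of_le_of_ne (hz1 j) (h j))
  rw [norm_eq_of_mem_sphere] at h2
  exact lt_irrefl _ h2

lemma fl_pow (p k : ℕ) : fl p 1 ^ k = fl p k := by
  induction k with
  | zero => simp [fl]
  | succ k ih => rw [pow_succ, ih, ← fl_add]; push_cast; rfl

lemma col (p q : ℕ) : ∃ G : Sph p → ℂ × ℝ, Continuous G ∧ (∀ z, ‖G z‖ ≤ 1) ∧
    (p.Prime → p ≠ 2 → 0 < q → q < p → ∀ z z' : Sph p,
      (z' : Fin (p / 4800) → ℂ) = om p ^ q • (z : Fin (p / 4800) → ℂ) → 1 / 2 ≤ ‖G z - G z'‖) := by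
  by_cases h : p.Prime ∧ p ≠ 2 ∧ 0 < q ∧ q < p
  swap
  · exact ⟨fun _ => 0, continuous_const, by simp, fun h1 h2 h3 h4 => absurd ⟨h1, h2, h3, h4⟩ h⟩
  obtain ⟨hp, hp2, hq0, hqp⟩ := h
  have : NeZero p := ⟨hp.ne_zero⟩
  obtain ⟨G, hG1, hG2, hG3⟩ := exists_colouring p (p / 4800) hp.pos (Nat.mul_div_le p 4800)
  have hρ : (- fl p 1) ^ p = 1 := by
    rw [(hp.odd_of_ne_two hp2).neg_pow, fl_pow, fl_p p hp.pos, neg_neg]
  have hprim := (om_prim hp.ne_zero).pow_of_coprime q
    (Nat.coprime_comm.mp ((Nat.coprime_of_lt_prime hq0.ne' hqp hp)))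
  obtain ⟨i, _, hi⟩ := hprim.eq_pow_of_pow_eq_one hρ
  have hi' : (om p ^ q) ^ (i + p) = - fl p 1 := by
    rw [pow_add, hi, hprim.pow_eq_one, mul_one]
  let pw : Sph p → Sph p := fun z => ⟨fun j => (z : Fin (p / 4800) → ℂ) j ^ (i + p), by
    obtain ⟨h1, j, hj⟩ := exists_norm_one z
    rw [mem_sphere_zero_iff_norm]
    apply le_antisymm
    · refine (pi_norm_le_iff_of_nonneg zero_le_one).mpr (fun j => ?_)
      rw [norm_pow]
      exact pow_le_one₀ (norm_nonneg _) (h1 j)
    · refine le_trans ?_ (norm_le_pi_norm _ j)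
      simp [hj]⟩
  have hpw : Continuous pw := by
    refine Continuous.subtype_mk (continuous_pi fun j => ?_) _
    exact ((continuous_apply j).comp continuous_subtype_val).pow _
  refine ⟨G ∘ pw, hG1.comp hpw, fun z => hG2 _, fun _ _ _ _ z z' h => hG3 _ _ ?_⟩
  funext j
  simp only [pw, h, Pi.smul_apply, smul_eq_mul, mul_pow, hi']

noncomputable def Gc (p q : ℕ) : Sph p → ℂ × ℝ := (col p q).choose

noncomputable def Rz (p : ℕ) (i : ℤ) (z : Sph p) : Sph p :=
  ⟨om p ^ i • (z : Fin (p / 4800) → ℂ), by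
    rw [mem_sphere_zero_iff_norm, norm_smul, norm_zpow, norm_om, one_zpow, one_mul,
      norm_eq_of_mem_sphere]⟩

lemma Rz_add (p : ℕ) (i j : ℤ) (z : Sph p) : Rz p (i + j) z = Rz p i (Rz p j z) := by
  apply Subtype.ext
  simp only [Rz, smul_smul, zpow_add₀ (om_ne p)]

lemma Rz_zero (p : ℕ) (z : Sph p) : Rz p 0 z = z := by
  apply Subtype.ext
  simp [Rz]

lemma Rz_cont (p : ℕ) (i : ℤ) : Continuous (Rz p i) :=
  Continuous.subtype_mk (f := fun z : Sph p => om p ^ i • (z : Fin (p / 4800) → ℂ))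
    (by fun_prop) _

abbrev Amb : Type := (ℤ → ℕ → ℂ × (ℂ × ℝ)) × ℝ

noncomputable def emb (p : ℕ) (z : Sph p) : Amb :=
  (fun i j => (if h : j < p / 4800 then (Rz p i z : Fin (p / 4800) → ℂ) ⟨j, h⟩ else 0,
    Gc p (j + 1) (Rz p i z)), 1 / p)

lemma emb_cont (p : ℕ) : Continuous (emb p) := by
  refine Continuous.prodMk (continuous_pi fun i => continuous_pi fun j => Continuous.prodMk ?_ ?_)
    continuous_const
  · split_ifs with h
    · exact (continuous_apply _).comp (continuous_subtype_val.comp (Rz_cont p i))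
    · exact continuous_const
  · exact (col p (j + 1)).choose_spec.1.comp (Rz_cont p i)

lemma emb_inj (p : ℕ) : Function.Injective (emb p) := by
  intro z z' h
  apply Subtype.ext
  funext j
  have := congrArg (fun x : Amb => (x.1 0 j).1) h
  simpa [emb, Rz_zero] using this

def shift : Amb ≃ₜ Amb where
  toFun x := (fun i => x.1 (i + 1), x.2)
  invFun x := (fun i => x.1 (i - 1), x.2)
  left_inv x := by simp
  right_inv x := by simp
  continuous_toFun := by fun_prop
  continuous_invFun := by fun_prop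

lemma shift_apply (x : Amb) : shift x = (fun i => x.1 (i + 1), x.2) := rfl

lemma shift_iter (k : ℕ) (x : Amb) : shift^[k] x = (fun i => x.1 (i + k), x.2) := by
  induction k generalizing x with
  | zero => simp
  | succ k ih =>
    rw [Function.iterate_succ_apply, ih, shift_apply]
    simp only [Prod.mk.injEq, and_true]
    funext i
    push_cast
    rw [add_assoc]

lemma shift_emb (p : ℕ) (z : Sph p) : shift (emb p z) = emb p (Rz p 1 z) := by
  simp only [shift_apply, emb, Rz_add]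

lemma shift_iter_emb (p k : ℕ) (z : Sph p) : shift^[k] (emb p z) = emb p (Rz p k z) := by
  simp only [shift_iter, emb, Rz_add]

def UU : Set Amb := ⋃ p ∈ {p : ℕ | p.Prime ∧ p ≠ 2}, Set.range (emb p)

lemma shift_UU : shift '' UU = UU := by
  ext x
  simp only [UU, Set.mem_image, Set.mem_iUnion, Set.mem_range]
  constructor
  · rintro ⟨_, ⟨p, hp, z, rfl⟩, rfl⟩
    exact ⟨p, hp, _, (shift_emb p z).symm⟩
  · rintro ⟨p, hp, z, rfl⟩
    refine ⟨_, ⟨p, hp, Rz p (-1) z, rfl⟩, ?_⟩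
    rw [shift_emb, ← Rz_add]
    simp [Rz_zero]

lemma shift_mem (x : Amb) : x ∈ closure UU ↔ shift x ∈ closure UU := by
  conv_rhs => rw [← shift_UU, ← shift.image_closure]
  exact (shift.injective.mem_set_image).symm

lemma compact_UU : IsCompact (closure UU) := by
  have hK : IsCompact ((Set.univ.pi fun _ : ℤ => Set.univ.pi fun _ : ℕ =>
      Metric.closedBall (0 : ℂ × (ℂ × ℝ)) 1) ×ˢ Set.Icc (0 : ℝ) 1) :=
    (isCompact_univ_pi fun _ => isCompact_univ_pi fun _ => isCompact_closedBall _ _).prod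
      isCompact_Icc
  refine hK.of_isClosed_subset isClosed_closure (closure_minimal ?_ hK.isClosed)
  intro x hx
  simp only [UU, Set.mem_iUnion, Set.mem_range] at hx
  obtain ⟨p, hp, z, rfl⟩ := hx
  refine ⟨fun i _ j _ => ?_, by simp [emb], ?_⟩
  · rw [mem_closedBall_zero_iff, Prod.norm_def, max_le_iff]
    refine ⟨?_, (col p (j + 1)).choose_spec.2.1 _⟩
    simp only [emb]
    split_ifs with h
    · exact (exists_norm_one _).1 _
    · simp
  · have : (1 : ℝ) ≤ p := by exact_mod_cast hp.1.one_le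
    simp only [emb]
    rw [div_le_one (by linarith)]
    exact this

lemma sep {x : Amb} (hx : x ∈ closure UU) (q : ℕ) :
    1 ≤ x.2 * (q + 1) ∨ 1 / 2 ≤ ‖(x.1 0 q).2 - (x.1 ((q + 1 : ℕ) : ℤ) q).2‖ := by
  have hcl : IsClosed ({x : Amb | 1 ≤ x.2 * (q + 1)} ∪
      {x : Amb | 1 / 2 ≤ ‖(x.1 0 q).2 - (x.1 ((q + 1 : ℕ) : ℤ) q).2‖}) :=
    (isClosed_le continuous_const (by fun_prop)).union (isClosed_le continuous_const (by fun_prop))
  refine closure_minimal ?_ hcl hx
  intro x hx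
  simp only [UU, Set.mem_iUnion, Set.mem_range] at hx
  obtain ⟨p, hp, z, rfl⟩ := hx
  have hp0 : (0 : ℝ) < p := by exact_mod_cast hp.1.pos
  by_cases h : q + 1 < p
  · right
    refine (col p (q + 1)).choose_spec.2.2 hp.1 hp.2 (by omega) h _ _ ?_
    simp only [Rz, zpow_zero, one_smul, zpow_natCast]
  · left
    have : (p : ℝ) ≤ q + 1 := by exact_mod_cast not_lt.mp h
    simp only [emb, Set.mem_ofPred_eq]
    rw [div_mul_eq_mul_div, one_mul, le_div_iff₀ hp0]
    linarith

lemma mem_UU_of_pos {x : Amb} (hx : x ∈ closure UU) (h : 0 < x.2) : x ∈ UU := by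
  obtain ⟨N, hN⟩ := exists_nat_gt (2 / x.2)
  have hcl : IsClosed ((⋃ p ∈ {p : ℕ | (p.Prime ∧ p ≠ 2) ∧ p < N}, Set.range (emb p)) ∪
      {y : Amb | y.2 ≤ x.2 / 2}) := by
    refine IsClosed.union (Set.Finite.isClosed_biUnion ?_ (fun p _ => ?_))
      (isClosed_le (by fun_prop) continuous_const)
    · exact (Set.finite_lt_nat N).subset (fun p hp => hp.2)
    · exact (isCompact_range (emb_cont p)).isClosed
  have := closure_minimal (s := UU) ?_ hcl hx
  · rcases this with h1 | h1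
    · simp only [UU, Set.mem_iUnion, Set.mem_range] at h1 ⊢
      obtain ⟨p, hp, z, hz⟩ := h1
      exact ⟨p, hp.1, z, hz⟩
    · simp only [Set.mem_ofPred_eq] at h1
      linarith
  · intro y hy
    simp only [UU, Set.mem_iUnion, Set.mem_range] at hy
    obtain ⟨p, hp, z, rfl⟩ := hy
    by_cases hpN : p < N
    · left
      simp only [Set.mem_iUnion, Set.mem_range]
      exact ⟨p, ⟨hp, hpN⟩, z, rfl⟩
    · right
      have h1 : (N : ℝ) ≤ p := by exact_mod_cast not_lt.mp hpN
      have hp0 : (0 : ℝ) < p := by exact_mod_cast hp.1.pos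
      simp only [emb, Set.mem_ofPred_eq]
      rw [div_lt_iff₀ h] at hN
      rw [div_le_iff₀ hp0]
      nlinarith

lemma periodic {x : Amb} (hx : x ∈ closure UU) (k : ℕ) (hk : 0 < k) (hper : shift^[k] x = x) :
    ∃ p : ℕ, (p.Prime ∧ p ≠ 2) ∧ p ∣ k ∧ x ∈ Set.range (emb p) := by
  obtain ⟨q, rfl⟩ : ∃ q, k = q + 1 := ⟨k - 1, by omega⟩
  have h1 : x.1 ((q + 1 : ℕ) : ℤ) = x.1 0 := by
    have := congrArg (fun y : Amb => y.1 0) hper
    simpa [shift_iter] using this
  have h2 := (sep hx q).resolve_right (by rw [h1, sub_self, norm_zero]; norm_num)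
  have h3 : 0 < x.2 := by
    by_contra h
    have : x.2 * (q + 1) ≤ 0 := mul_nonpos_of_nonpos_of_nonneg (not_lt.mp h) (by positivity)
    linarith
  have h4 := mem_UU_of_pos hx h3
  simp only [UU, Set.mem_iUnion, Set.mem_range] at h4
  obtain ⟨p, hp, z, rfl⟩ := h4
  refine ⟨p, hp, ?_, z, rfl⟩
  rw [shift_iter_emb] at hper
  have h5 := congrArg Subtype.val (emb_inj p hper)
  obtain ⟨j, hj⟩ := (exists_norm_one z).2
  have h6 := congrFun h5 j
  simp only [Rz, zpow_natCast, Pi.smul_apply, smul_eq_mul] at h6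
  have h7 : (z : Fin (p / 4800) → ℂ) j ≠ 0 := by
    intro h
    rw [h, norm_zero] at hj
    exact zero_ne_one hj
  exact (om_prim hp.1.ne_zero).dvd_of_pow_eq_one _ ((mul_eq_right₀ h7).mp h6)

theorem exists_system : ∃ (X : Type) (_ : TopologicalSpace X) (_ : CompactSpace X)
    (_ : TopologicalSpace.MetrizableSpace X) (T : X ≃ₜ X), (∀ x, T x ≠ x) ∧
    ∀ p : ℕ, p.Prime → p ≠ 2 → ∃ j : Sph p → X, Continuous j ∧ Function.Injective j ∧
      Set.range j = Function.ptsOfPeriod T p ∧ ∀ z, j (Rz p 1 z) = T (j z) := by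
  let T : closure UU ≃ₜ closure UU := shift.subtype shift_mem
  have hT : ∀ x, (T x : Amb) = shift x := fun x => rfl
  have hTk : ∀ k x, (T^[k] x : Amb) = shift^[k] x := by
    intro k
    induction k with
    | zero => intro x; rfl
    | succ k ih => intro x; rw [Function.iterate_succ_apply, Function.iterate_succ_apply, ih, hT]
  refine ⟨closure UU, inferInstance, isCompact_iff_compactSpace.mp compact_UU, inferInstance, T,
    fun x hx => ?_, fun p hp hp2 => ?_⟩
  · obtain ⟨p, hp, hd, _⟩ := periodic x.2 1 one_pos (congrArg Subtype.val hx)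
    exact hp.1.one_lt.ne' (Nat.dvd_one.mp hd)
  · have hmem : ∀ z, emb p z ∈ closure UU := fun z => subset_closure (by
      simp only [UU, Set.mem_iUnion, Set.mem_range]
      exact ⟨p, ⟨hp, hp2⟩, z, rfl⟩)
    refine ⟨fun z => ⟨emb p z, hmem z⟩, (emb_cont p).subtype_mk _,
      fun z z' h => emb_inj p (congrArg Subtype.val h), ?_, fun z => ?_⟩
    · ext x
      simp only [Set.mem_range, Function.mem_ptsOfPeriod, Function.IsPeriodicPt,
        Function.IsFixedPt]
      constructor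
      · rintro ⟨z, rfl⟩
        apply Subtype.ext
        rw [hTk, shift_iter_emb]
        congr 1
        apply Subtype.ext
        simp only [Rz, zpow_natCast, (om_prim hp.ne_zero).pow_eq_one, one_smul]
      · intro hx
        obtain ⟨p', hp', hd, z, hz⟩ := periodic x.2 p hp.pos (by rw [← hTk, hx])
        obtain rfl := (Nat.prime_dvd_prime_iff_eq hp'.1 hp).mp hd
        exact ⟨z, Subtype.ext hz⟩
    · exact Subtype.ext (shift_emb p z).symm

end Pool.Agent.P.MP_4d0e60_an
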