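import Mathlib
import Pool.Agent.P.MP_4d0e60_an.System
import Pool.Agent.P.MP_4d0e60_an.Sphere
import Pool.Agent.P.MP_4d0e60_an.BU

set_option autoImplicit false

namespace Pool.Agent.P.MP_4d0e60_an

open Finset

lemma EqvMap.trans {X Y Z : Type} [TopologicalSpace X] [TopologicalSpace Y] [TopologicalSpace Z]
    {A : Set X} {S : X → X} {B : Set Y} {R : Y → Y} {C : Set Z} {U : Z → Z}
    (h1 : EqvMap A S B R) (h2 : EqvMap B R C U) : EqvMap A S C U := by
  obtain ⟨f, hf1, hf2, hf3⟩ := h1
  obtain ⟨g, hg1, hg2, hg3⟩ := h2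
  exact ⟨g ∘ f, hg1.comp hf1 hf2, hg2.comp hf2, fun x hx => by
    simp only [Function.comp_apply, hf3 x hx, hg3 _ (hf2 hx)]⟩

/-- The index of the periodic points of a fixed-point free system is finite. -/
lemma exists_to_join {X : Type} [TopologicalSpace X] [CompactSpace X]
    [TopologicalSpace.MetrizableSpace X] (T : X ≃ₜ X) (hT : ∀ x, T x ≠ x) (p : ℕ) [Fact p.Prime] :
    ∃ n, EqvMap (Function.ptsOfPeriod T p) T (EJoin p n) (rot p n) := by
  have hp : p.Prime := Fact.out
  rcases (Function.ptsOfPeriod T p).eq_empty_or_nonempty with h | hne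
  · exact ⟨0, fun _ _ _ => 0, continuousOn_const, by rw [h]; exact Set.mapsTo_empty _ _,
      by simp [h]⟩
  let := TopologicalSpace.metrizableSpaceMetric X
  have hA : IsCompact (Function.ptsOfPeriod T p) :=
    (isClosed_eq (T.continuous.iterate p) continuous_id).isCompact
  let orb : X → ZMod p → X := fun x a => T^[a.val] x
  have horbc : ∀ a, Continuous (fun x => orb x a) := fun a => T.continuous.iterate _
  have horbT : ∀ x ∈ Function.ptsOfPeriod T p, ∀ a, orb (T x) a = orb x (a + 1) := by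
    intro x hx a
    simp only [orb]
    rw [ZMod.val_add, ZMod.val_one, Function.IsPeriodicPt.iterate_mod_apply hx,
      Function.iterate_succ_apply]
  have hfree0 : ∀ x ∈ Function.ptsOfPeriod T p, ∀ i j : ℕ, i < j → j < p → T^[i] x ≠ T^[j] x := by
    intro x hx i j hij hj h
    have h1 : Function.IsPeriodicPt T (j - i) (T^[i] x) := by
      rw [Function.IsPeriodicPt, Function.IsFixedPt, ← Function.iterate_add_apply,
        Nat.sub_add_cancel hij.le, h]
    have h2 : Function.IsPeriodicPt T p (T^[i] x) := Function.IsPeriodicPt.apply_iterate hx i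
    have h3 := h2.gcd h1
    rw [Nat.coprime_of_lt_prime (by omega) (by omega) hp] at h3
    exact hT _ h3
  have hfree : ∀ x ∈ Function.ptsOfPeriod T p, ∀ a b, a ≠ b → orb x a ≠ orb x b := by
    intro x hx a b hab
    rcases lt_trichotomy a.val b.val with h | h | h
    · exact hfree0 x hx _ _ h (ZMod.val_lt b)
    · exact absurd (ZMod.val_injective p h) hab
    · exact (hfree0 x hx _ _ h (ZMod.val_lt a)).symm
  have hδ0 : ∀ ab : ZMod p × ZMod p, ∃ δ : ℝ, 0 < δ ∧ (ab.1 ≠ ab.2 →
      ∀ x ∈ Function.ptsOfPeriod T p, δ ≤ dist (orb x ab.1) (orb x ab.2)) := by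
    intro ab
    by_cases h : ab.1 = ab.2
    · exact ⟨1, one_pos, fun h' => absurd h h'⟩
    · obtain ⟨δ, h1, h2⟩ := hA.exists_forall_le' ((horbc ab.1).dist (horbc ab.2)).continuousOn
        (a := 0) (fun x hx => dist_pos.mpr (hfree x hx _ _ h))
      exact ⟨δ, h1, fun _ => h2⟩
  choose d hd1 hd2 using hδ0
  obtain ⟨ab0, hab0⟩ := Finite.exists_min d
  have hδ := hd1 ab0
  obtain ⟨t, _, htf, hcov⟩ := finite_cover_balls_of_compact hA (half_pos hδ)
  obtain ⟨n, c, hc⟩ := htf.fin_embedding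
  have hcov' : ∀ x ∈ Function.ptsOfPeriod T p, ∃ j, dist x (c j) < d ab0 / 2 := by
    intro x hx
    have := hcov hx
    simp only [Set.mem_iUnion, Metric.mem_ball] at this
    obtain ⟨y, hy, hxy⟩ := this
    rw [← hc] at hy
    obtain ⟨j, rfl⟩ := hy
    exact ⟨j, hxy⟩
  obtain ⟨n, rfl⟩ : ∃ n', n = n' + 1 := by
    obtain ⟨x, hx⟩ := hne
    obtain ⟨j, _⟩ := hcov' x hx
    exact ⟨n - 1, by have := j.2; omega⟩
  let w : X → Fin (n + 1) → ZMod p → ℝ := fun x j a => max (d ab0 / 2 - dist (orb x (-a)) (c j)) 0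
  have hwc : ∀ j a, Continuous (fun x => w x j a) := fun j a => by
    have := horbc (-a)
    simp only [w]
    fun_prop
  have hw0 : ∀ x j a, 0 ≤ w x j a := fun x j a => le_max_right _ _
  have hwT : ∀ x ∈ Function.ptsOfPeriod T p, ∀ j a, w (T x) j a = w x j (a - 1) := by
    intro x hx j a
    simp only [w]
    rw [horbT x hx]
    congr 4
    ring
  let Z : X → ℝ := fun x => ∑ j, ∑ a, w x j a
  have hZ : ∀ x ∈ Function.ptsOfPeriod T p, 0 < Z x := by
    intro x hx
    obtain ⟨j, hj⟩ := hcov' x hx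
    have h1 : 0 < w x j 0 := by
      simp only [w, orb, neg_zero, ZMod.val_zero, Function.iterate_zero, id_eq, lt_max_iff]
      left; linarith
    calc 0 < w x j 0 := h1
      _ ≤ ∑ a, w x j a := single_le_sum (fun a _ => hw0 x j a) (mem_univ _)
      _ ≤ Z x := single_le_sum (f := fun j => ∑ a, w x j a)
          (fun j _ => sum_nonneg (fun a _ => hw0 x j a)) (mem_univ j)
  have hZc : Continuous Z :=
    continuous_finsetSum _ (fun j _ => continuous_finsetSum _ (fun a _ => hwc j a))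
  refine ⟨n, fun x j a => w x j a / Z x, ?_, fun x hx => ⟨fun j a => ?_, ?_, fun j a b ha hb => ?_⟩,
    fun x hx => ?_⟩
  · refine continuousOn_pi.mpr (fun j => continuousOn_pi.mpr (fun a => ?_))
    exact (hwc j a).continuousOn.div hZc.continuousOn (fun x hx => (hZ x hx).ne')
  · exact div_nonneg (hw0 x j a) (hZ x hx).le
  · simp only [← sum_div]
    exact div_self (hZ x hx).ne'
  · by_contra hab
    have h1 : ∀ a, w x j a / Z x ≠ 0 → dist (orb x (-a)) (c j) < d ab0 / 2 := by
      intro a ha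
      by_contra h
      apply ha
      have : w x j a = 0 := max_eq_right (by linarith [not_lt.mp h])
      rw [this, zero_div]
    have h2 := hd2 (-a, -b) (by simpa using hab) x hx
    have h3 := hab0 (-a, -b)
    have h4 := dist_triangle_right (orb x (-a)) (orb x (-b)) (c j)
    have := h1 a ha
    have := h1 b hb
    simp only at h2
    linarith
  · funext j a
    have : Z (T x) = Z x := by
      simp only [Z, hwT x hx]
      exact sum_congr rfl (fun j _ => sum_rot (w x j))
    simp only [rot, hwT x hx, this]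

/-- The join maps equivariantly to the sphere. -/
lemma join_to_sphere (p : ℕ) [Fact p.Prime] (n : ℕ) (hn : p / 4800 = n + 1) :
    EqvMap (EJoin p n) (rot p n) (Set.univ : Set (Sph p)) (Rz p 1) := by
  classical
  have hp : p.Prime := Fact.out
  let χ : AddChar (ZMod p) ℂ := AddChar.zmodChar p (om_prim hp.ne_zero).pow_eq_one
  have hχ1 : χ 1 = om p := by
    simp only [χ]
    rw [AddChar.zmodChar_apply, ZMod.val_one, pow_one]
  have hχ0 : ∀ a, χ a ≠ 0 := fun a => by
    simp only [χ]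
    rw [AddChar.zmodChar_apply]
    exact pow_ne_zero _ (om_ne p)
  let vec : (Fin (n + 1) → ZMod p → ℝ) → Fin (p / 4800) → ℂ :=
    fun w i => ∑ a, (w (Fin.cast hn i) a : ℂ) * χ a
  have hvc : Continuous vec := by
    refine continuous_pi (fun i => continuous_finsetSum _ (fun a _ => ?_))
    fun_prop
  have hvr : ∀ w, vec (rot p n w) = om p • vec w := by
    intro w
    funext i
    simp only [vec, rot, Pi.smul_apply, smul_eq_mul, mul_sum]
    rw [← Equiv.sum_comp (Equiv.addRight (1 : ZMod p))]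
    refine sum_congr rfl (fun a _ => ?_)
    simp only [Equiv.coe_addRight, add_sub_cancel_right, AddChar.map_add_eq_mul, hχ1]
    ring
  have hv0 : ∀ w ∈ EJoin p n, vec w ≠ 0 := by
    intro w hw h
    obtain ⟨j, a, ha⟩ : ∃ j a, w j a ≠ 0 := by
      by_contra hcon
      push Not at hcon
      have := hw.2.1
      simp [hcon] at this
    have h1 := congrFun h (Fin.cast hn.symm j)
    simp only [vec, Fin.cast_cast, Fin.cast_eq_self, Pi.zero_apply] at h1
    rw [sum_eq_single a] at h1
    · exact mul_ne_zero (by exact_mod_cast ha) (hχ0 a) h1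
    · intro b _ hb
      have : w j b = 0 := by
        by_contra hcon
        exact hb (hw.2.2 j b a hcon ha)
      simp [this]
    · simp
  have hmem : ∀ w, vec w ≠ 0 → ‖vec w‖⁻¹ • vec w ∈ Metric.sphere (0 : Fin (p / 4800) → ℂ) 1 := by
    intro w h
    rw [mem_sphere_zero_iff_norm, norm_smul, norm_inv, norm_norm,
      inv_mul_cancel₀ (norm_ne_zero_iff.mpr h)]
  have : Nonempty (Fin (p / 4800)) := ⟨⟨0, by omega⟩⟩
  let z0 : Sph p := ⟨fun _ => 1, by simp⟩
  refine ⟨fun w => if h : vec w ≠ 0 then ⟨_, hmem w h⟩ else z0, ?_, Set.mapsTo_univ _ _,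
    fun w hw => ?_⟩
  · rw [continuousOn_iff_continuous_domRestrict]
    have : (EJoin p n).domRestrict (fun w => if h : vec w ≠ 0 then (⟨_, hmem w h⟩ : Sph p) else z0) =
        fun w => ⟨_, hmem w (hv0 w w.2)⟩ := by
      funext w
      simp only [Set.domRestrict_apply, dif_pos (hv0 w w.2)]
    rw [this]
    have h1 : Continuous (fun w : EJoin p n => vec w) := hvc.comp continuous_subtype_val
    exact Continuous.subtype_mk
      ((h1.norm.inv₀ (fun w => norm_ne_zero_iff.mpr (hv0 w w.2))).smul h1) _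
  · simp only [dif_pos (hv0 w hw), dif_pos (hv0 _ (rot_mem hw))]
    apply Subtype.ext
    simp only [Rz, hvr, norm_smul, norm_om, one_mul, zpow_one]
    rw [smul_comm]

theorem main : ∃ (X : Type) (_ : TopologicalSpace X) (_ : CompactSpace X)
    (_ : TopologicalSpace.MetrizableSpace X) (T : X ≃ₜ X), (∀ x, T x ≠ x) ∧
    ∃ C : ℝ, 0 < C ∧ ∃ p₀ : ℕ, ∀ (p : ℕ) [Fact p.Prime], p₀ ≤ p →
      ((Function.ptsOfPeriod T p).Nonempty ∧ ∃ n : ℕ,
        IsLeast {m : ℕ | EqvMap (Function.ptsOfPeriod T p) T (EJoin p m) (rot p m)} n ∧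
          C * p ≤ n) ∧
      (∃ n : ℕ,
        IsGreatest {m : ℕ | EqvMap (EJoin p m) (rot p m) (Function.ptsOfPeriod T p) T} n ∧
          C * p ≤ n) ∧
      ∃ n : ℕ, NConn (Function.ptsOfPeriod T p) n ∧ C * p ≤ n := by
  classical
  obtain ⟨X, _, _, _, T, hT, hX⟩ := exists_system
  refine ⟨X, inferInstance, inferInstance, inferInstance, T, hT, 1 / 9600, by norm_num, 19200,
    fun p _ hp0 => ?_⟩
  have hp : p.Prime := Fact.out
  obtain ⟨j, hjc, hji, hjr, hje⟩ := hX p hp (by omega)
  obtain ⟨n, hn⟩ : ∃ n, p / 4800 = n + 1 := ⟨p / 4800 - 1, by omega⟩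
  have hnp : (1 / 9600 : ℝ) * p ≤ n := by
    have : p ≤ 9600 * n := by omega
    have : (p : ℝ) ≤ 9600 * n := by exact_mod_cast this
    linarith
  have h1 : EqvMap (EJoin p n) (rot p n) (Function.ptsOfPeriod T p) T :=
    (join_to_sphere p n hn).trans ⟨j, hjc.continuousOn, fun z _ => hjr ▸ Set.mem_range_self z,
      fun z _ => hje z⟩
  have h2 := exists_to_join T hT p
  have : Nonempty (Fin (p / 4800)) := ⟨⟨0, by omega⟩⟩
  let z0 : Sph p := ⟨fun _ => 1, by simp⟩
  have hz0 : j z0 ∈ Function.ptsOfPeriod T p := hjr ▸ Set.mem_range_self z0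
  refine ⟨⟨⟨_, hz0⟩, Nat.find h2, ⟨Nat.find_spec h2, fun m hm => Nat.find_min' h2 hm⟩, ?_⟩, ?_,
    n, ⟨⟨⟨_, hz0⟩⟩, fun i hi x => ?_⟩, hnp⟩
  · exact hnp.trans (by exact_mod_cast BU (h1.trans (Nat.find_spec h2)))
  · obtain ⟨N, hN⟩ := h2
    have hbdd : BddAbove {m : ℕ | EqvMap (EJoin p m) (rot p m) (Function.ptsOfPeriod T p) T} :=
      ⟨N, fun m hm => BU (EqvMap.trans hm hN)⟩
    exact ⟨_, ⟨Nat.sSup_mem ⟨n, h1⟩ hbdd, fun m hm => le_csSup hbdd hm⟩,
      hnp.trans (by exact_mod_cast le_csSup hbdd h1)⟩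
  · let e0 : Sph p ≃ Function.ptsOfPeriod T p :=
      (Equiv.ofInjective j hji).trans (Equiv.setCongr hjr)
    have he0 : Continuous e0 := Continuous.subtype_mk hjc _
    refine subsingleton_pi (V := Fin (p / 4800) → ℂ) he0.homeoOfEquivCompactToT2.symm i ?_ x
    rw [Module.finrank_pi_fintype]
    simp only [Complex.finrank_real_complex, sum_const, card_univ, Fintype.card_fin, smul_eq_mul]
    omega

end Pool.Agent.P.MP_4d0e60_an
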